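import Mathlib

/-! Automorphisms of `ℂ`. -/

set_option autoImplicit false

namespace Pool.Agent.H15.CR

open Cardinal

theorem extend_gen (E K L : Type) [Field E] [Countable E] [Field K] [Field L] [IsAlgClosed K] [IsAlgClosed L]
    [Algebra E K] [Algebra E L] (hK : ℵ₀ < #K) (hKL : #K = #L) :
    ∃ σ : K ≃+* L, ∀ x : E, σ (algebraMap E K x) = algebraMap E L x := by
  obtain ⟨ι, v, hv⟩ := exists_isTranscendenceBasis' E K
  obtain ⟨κ, w, hw⟩ := exists_isTranscendenceBasis' E L
  have hE : #E ≤ ℵ₀ := Cardinal.mk_le_aleph0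
  have h1 := IsAlgClosed.cardinal_eq_cardinal_transcendence_basis_of_aleph0_lt' v hv hE hK
  have h2 := IsAlgClosed.cardinal_eq_cardinal_transcendence_basis_of_aleph0_lt' w hw hE (hKL ▸ hK)
  obtain ⟨e⟩ := Cardinal.eq.1 (h1.symm.trans (hKL.trans h2))
  let _ := IsAlgClosed.isAlgClosure_of_transcendence_basis v hv
  let _ := IsAlgClosed.isAlgClosure_of_transcendence_basis w hw
  let e' : Algebra.adjoin E (Set.range v) ≃ₐ[E] Algebra.adjoin E (Set.range w) :=
    hv.1.aevalEquiv.symm.trans ((MvPolynomial.renameEquiv E e).trans hw.1.aevalEquiv)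
  refine ⟨IsAlgClosure.equivOfEquiv K L e'.toRingEquiv, fun x => ?_⟩
  have h3 : algebraMap E K x = algebraMap (Algebra.adjoin E (Set.range v)) K
      (algebraMap E (Algebra.adjoin E (Set.range v)) x) := rfl
  rw [h3, IsAlgClosure.equivOfEquiv_algebraMap]
  have h4 : e'.toRingEquiv (algebraMap E (Algebra.adjoin E (Set.range v)) x) =
      algebraMap E (Algebra.adjoin E (Set.range w)) x := e'.commutes x
  rw [h4]
  rfl

/-- two embeddings of a countable field in `ℂ` differ by an automorphism of `ℂ` -/
theorem extend (E : Type) [Field E] [Countable E] (i₁ i₂ : E →+* ℂ) :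
    ∃ σ : ℂ ≃+* ℂ, ∀ x, σ (i₁ x) = i₂ x := by
  have hC : ℵ₀ < #ℂ := by rw [Cardinal.mk_complex]; exact Cardinal.aleph0_lt_continuum
  exact @extend_gen E ℂ ℂ _ _ _ _ _ _ i₁.toAlgebra i₂.toAlgebra hC rfl

theorem countable_poly : Countable (Polynomial ℚ) := by
  rw [← Cardinal.mk_le_aleph0_iff]
  refine (Polynomial.cardinalMk_le_max).trans ?_
  simp

/-- a complex number fixed by all automorphisms is rational -/
theorem rational_of_fixed (x : ℂ) (h : ∀ σ : ℂ ≃+* ℂ, σ x = x) : ∃ q : ℚ, x = q := by
  by_cases hx : IsAlgebraic ℚ x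
  · -- algebraic case
    have hint : IsIntegral ℚ x := hx.isIntegral
    by_contra hcon
    push Not at hcon
    have hdeg : 1 < (minpoly ℚ x).natDegree := by
      by_contra hle
      have h1 : (minpoly ℚ x).natDegree = 1 :=
        le_antisymm (not_lt.1 hle) (minpoly.natDegree_pos hint)
      have h2 : x ∈ (algebraMap ℚ ℂ).range := by
        rw [← minpoly.natDegree_eq_one_iff]
        exact h1
      obtain ⟨q, hq⟩ := h2
      exact hcon q (by rw [← hq]; simp)
    -- another root
    obtain ⟨y, hy, hyx⟩ : ∃ y : ℂ, Polynomial.aeval y (minpoly ℚ x) = 0 ∧ y ≠ x := by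
      have hsep : (minpoly ℚ x).Separable := (minpoly.irreducible hint).separable
      have hcard : Fintype.card ((minpoly ℚ x).rootSet ℂ) = (minpoly ℚ x).natDegree :=
        Polynomial.card_rootSet_eq_natDegree hsep (IsAlgClosed.splits _)
      by_contra hcon2
      push Not at hcon2
      have hsub : Subsingleton ((minpoly ℚ x).rootSet ℂ) := by
        constructor
        rintro ⟨a, ha⟩ ⟨b, hb⟩
        rw [Polynomial.mem_rootSet] at ha hb
        exact Subtype.ext ((hcon2 a ha.2).trans (hcon2 b hb.2).symm)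
      have := Fintype.card_le_one_iff_subsingleton.2 hsub
      omega
    have : Fact (Irreducible (minpoly ℚ x)) := ⟨minpoly.irreducible hint⟩
    have : Countable (AdjoinRoot (minpoly ℚ x)) := by
      have h3 : Countable (Polynomial ℚ) := countable_poly
      exact Function.Surjective.countable (AdjoinRoot.mk_surjective (g := minpoly ℚ x))
    obtain ⟨σ, hσ⟩ := extend (AdjoinRoot (minpoly ℚ x))
      (AdjoinRoot.lift (algebraMap ℚ ℂ) x (by have := minpoly.aeval ℚ x; rwa [Polynomial.aeval_def] at this))
      (AdjoinRoot.lift (algebraMap ℚ ℂ) y (by rwa [Polynomial.aeval_def] at hy))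
    have h4 := hσ (AdjoinRoot.root _)
    rw [AdjoinRoot.lift_root, AdjoinRoot.lift_root, h σ] at h4
    exact hyx h4.symm
  · -- transcendental case
    have htr : Transcendental ℚ x := hx
    have htr' : Transcendental ℚ (x + 1) := by
      intro h1
      apply hx
      have : x = (x + 1) - 1 := by ring
      rw [this]
      exact h1.sub (isAlgebraic_one)
    have hinj : ∀ z : ℂ, Transcendental ℚ z → Function.Injective (Polynomial.aeval z : Polynomial ℚ →ₐ[ℚ] ℂ) :=
      fun z hz => (transcendental_iff_injective).1 hz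
    have : Countable (FractionRing (Polynomial ℚ)) := by
      have h3 : Countable (Polynomial ℚ) := countable_poly
      have hs : Function.Surjective (fun p : Polynomial ℚ × Polynomial ℚ =>
          algebraMap (Polynomial ℚ) (FractionRing (Polynomial ℚ)) p.1 /
            algebraMap (Polynomial ℚ) (FractionRing (Polynomial ℚ)) p.2) := by
        intro z
        obtain ⟨a, b, -, e⟩ := IsFractionRing.div_surjective (A := Polynomial ℚ) z
        exact ⟨(a, b), e⟩
      exact hs.countable
    obtain ⟨σ, hσ⟩ := extend (FractionRing (Polynomial ℚ))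
      (IsFractionRing.lift (K := FractionRing (Polynomial ℚ)) (g := (Polynomial.aeval x : Polynomial ℚ →ₐ[ℚ] ℂ).toRingHom) (hinj x htr))
      (IsFractionRing.lift (K := FractionRing (Polynomial ℚ)) (g := (Polynomial.aeval (x + 1) : Polynomial ℚ →ₐ[ℚ] ℂ).toRingHom) (hinj _ htr'))
    have h4 := hσ (algebraMap (Polynomial ℚ) (FractionRing (Polynomial ℚ)) Polynomial.X)
    rw [IsFractionRing.lift_algebraMap, IsFractionRing.lift_algebraMap] at h4
    have h5 : σ x = x + 1 := by simpa using h4
    rw [h σ] at h5
    exfalso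
    have : (0 : ℂ) = 1 := by linear_combination h5
    exact zero_ne_one this

end Pool.Agent.H15.CR
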