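import Pool.Agent.H15.CR.Freud

/-! Bundled quadratic periods of constructions. -/

set_option autoImplicit false

namespace Pool.Agent.H15.CR

open Module Pool.Agent.H15.SP

variable {U : Type} [AddCommGroup U] [Module ℂ U] [Module ℚ U]

/-- A quadratic period attached to `M` and its structure group `G`: a motive `T` built from `M` by the representation `ρ`
of `G`, and a quadratic period `x` of `T`, belonging to the subspace `W`. -/
structure QuadPeriod (M : Mot U) (G : Subgroup (U ≃ₗ[ℂ] U)) where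
  /-- the space `T_B ⊗ ℂ` -/
  V : Type
  [inst1 : AddCommGroup V]
  [inst2 : Module ℂ V]
  [inst3 : Module ℚ V]
  /-- the motive -/
  T : Mot V
  /-- the representation -/
  ρ : G →* (V ≃ₗ[ℂ] V)
  constr : IsConstruction M G T ρ
  /-- the subspace -/
  W : Submodule ℂ V
  /-- the quadratic period -/
  x : ℂ
  quad : IsQuad T W x

attribute [instance] QuadPeriod.inst1 QuadPeriod.inst2 QuadPeriod.inst3

/-- the character `det(ρ(l) | W)` (for `l ∈ G` which preserve the Hodge decomposition) -/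
noncomputable def QuadPeriod.χ {M : Mot U} {G : Subgroup (U ≃ₗ[ℂ] U)} (Q : QuadPeriod M G) (l : G) : ℂ :=
  detOn (Q.ρ l) Q.W

/-- `F_∞ g F_∞ = g⁻¹` -/
def IsAnti (M : Mot U) (g : U ≃ₗ[ℂ] U) : Prop := ∀ x, M.F (g (M.F (g x))) = x

/-- two complex numbers which differ by a nonzero rational factor -/
def Sim (x y : ℂ) : Prop := ∃ q : ℚ, q ≠ 0 ∧ x = q * y

theorem quad_relation' (M : Mot U)
    {J : Type} {k : J → ℕ} {t : ∀ j, MultilinearMap ℂ (fun _ : Fin (k j) => U) ℂ} (ht : ∀ j, IsTensor M (t j))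
    {I : Type} [Fintype I] (Q : I → QuadPeriod M (strGroup t)) (a : I → ℤ)
    (h : ∀ l : strGroup t, IsLevi M l → IsAnti M l → ∏ i, (Q i).χ l ^ a i = 1) :
    Sim (∏ i, (Q i).x ^ a i) 1 := by
  obtain ⟨q, hq0, hq⟩ := quad_relation M ht (fun i => (Q i).T) (fun i => (Q i).ρ) (fun i => (Q i).constr) a
    (fun i => (Q i).W) (fun i => (Q i).x) (fun i => (Q i).quad) h
  exact ⟨q, hq0, by rw [mul_one]; exact hq⟩

end Pool.Agent.H15.CR
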