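import Pool.Agent.H15.SP.Hodge

/-! Components of the Hodge decomposition, graded maps. -/

set_option autoImplicit false

namespace Pool.Agent.H15.CR

open Module Pool.Agent.H15.SP

variable {U : Type} [AddCommGroup U] [Module ℂ U] [Module ℚ U]

/-- the component in `H p` -/
noncomputable def comp (M : Mot U) (p : ℤ) : U →ₗ[ℂ] U :=
  (M.H p).subtype ∘ₗ (DirectSum.component ℂ ℤ (fun p => M.H p) p) ∘ₗ
    (LinearEquiv.ofBijective (DirectSum.coeLinearMap M.H) M.decomp).symm.toLinearMap

variable {M : Mot U}

lemma comp_mem (p : ℤ) (x : U) : comp M p x ∈ M.H p := by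
  simp only [comp, LinearMap.comp_apply, Submodule.subtype_apply]
  exact Subtype.coe_prop _

lemma comp_of_mem {p : ℤ} {x : U} (hx : x ∈ M.H p) (q : ℤ) : comp M q x = if p = q then x else 0 := by
  have h1 : (LinearEquiv.ofBijective (DirectSum.coeLinearMap M.H) M.decomp).symm x =
      DirectSum.lof ℂ ℤ (fun p => M.H p) p ⟨x, hx⟩ := by
    rw [LinearEquiv.symm_apply_eq]
    exact (DirectSum.coeLinearMap_lof M.H p ⟨x, hx⟩).symm
  simp only [comp, LinearMap.comp_apply, LinearEquiv.coe_coe, h1, Submodule.subtype_apply]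
  split_ifs with h
  · subst h
    rw [DirectSum.component.lof_self]
  · rw [DirectSum.component.of, dif_neg h]
    rfl

lemma comp_self {p : ℤ} {x : U} (hx : x ∈ M.H p) : comp M p x = x := by rw [comp_of_mem hx, if_pos rfl]

lemma comp_ne {p q : ℤ} (h : p ≠ q) {x : U} (hx : x ∈ M.H p) : comp M q x = 0 := by rw [comp_of_mem hx, if_neg h]

lemma comp_comp (p : ℤ) (x : U) : comp M p (comp M p x) = comp M p x := comp_self (comp_mem p x)

lemma comp_ext {x y : U} (h : ∀ p, comp M p x = comp M p y) : x = y := by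
  have h1 : (LinearEquiv.ofBijective (DirectSum.coeLinearMap M.H) M.decomp).symm x =
      (LinearEquiv.ofBijective (DirectSum.coeLinearMap M.H) M.decomp).symm y := by
    apply DFinsupp.ext
    intro p
    apply Subtype.ext
    exact h p
  exact (LinearEquiv.ofBijective (DirectSum.coeLinearMap M.H) M.decomp).symm.injective h1

lemma comp_fil {i p : ℤ} (h : p < i) {x : U} (hx : x ∈ M.fil i) : comp M p x = 0 := by
  have h1 : M.fil i ≤ LinearMap.ker (comp M p) := by
    refine iSup₂_le fun q hq => ?_
    intro y hy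
    exact LinearMap.mem_ker.2 (comp_ne (by omega) hy)
  exact LinearMap.mem_ker.1 (h1 hx)

lemma comp_low {i p : ℤ} (h : i < p) {x : U} (hx : x ∈ M.low i) : comp M p x = 0 := by
  have h1 : M.low i ≤ LinearMap.ker (comp M p) := by
    refine iSup₂_le fun q hq => ?_
    intro y hy
    exact LinearMap.mem_ker.2 (comp_ne (by omega) hy)
  exact LinearMap.mem_ker.1 (h1 hx)

/-- the finite set of the components of a vector -/
noncomputable def supp (M : Mot U) (x : U) : Finset ℤ := by
  classical
  exact ((LinearEquiv.ofBijective (DirectSum.coeLinearMap M.H) M.decomp).symm x).support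

lemma comp_not_supp {x : U} {p : ℤ} (h : p ∉ supp M x) : comp M p x = 0 := by
  classical
  have h1 : ((LinearEquiv.ofBijective (DirectSum.coeLinearMap M.H) M.decomp).symm x) p = 0 := by
    by_contra h2
    exact h (DFinsupp.mem_support_iff.2 h2)
  simp only [comp, LinearMap.comp_apply, LinearEquiv.coe_coe, Submodule.subtype_apply]
  change (((LinearEquiv.ofBijective (DirectSum.coeLinearMap M.H) M.decomp).symm x) p : U) = 0
  rw [h1]
  rfl

lemma sum_comp (x : U) (s : Finset ℤ) (hs : ∀ p ∉ s, comp M p x = 0) : ∑ p ∈ s, comp M p x = x := by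
  apply comp_ext (M := M)
  intro q
  rw [map_sum]
  by_cases hq : q ∈ s
  · rw [Finset.sum_eq_single q, comp_comp]
    · intro p _ hp
      exact comp_ne hp (comp_mem p x)
    · intro h; exact absurd hq h
  · rw [hs q hq]
    refine Finset.sum_eq_zero fun p hp => ?_
    exact comp_ne (fun e => hq (by rw [← e]; exact hp)) (comp_mem p x)

lemma mem_fil {i : ℤ} {x : U} (h : ∀ p < i, comp M p x = 0) : x ∈ M.fil i := by
  rw [← sum_comp (M := M) x (supp M x) (fun p hp => comp_not_supp hp)]
  refine Submodule.sum_mem _ fun p _ => ?_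
  by_cases hp : p < i
  · rw [h p hp]; exact Submodule.zero_mem _
  · exact M.H_le_fil (not_lt.1 hp) (comp_mem p x)

lemma mem_low {i : ℤ} {x : U} (h : ∀ p, i < p → comp M p x = 0) : x ∈ M.low i := by
  rw [← sum_comp (M := M) x (supp M x) (fun p hp => comp_not_supp hp)]
  refine Submodule.sum_mem _ fun p _ => ?_
  by_cases hp : i < p
  · rw [h p hp]; exact Submodule.zero_mem _
  · exact M.H_le_low (not_lt.1 hp) (comp_mem p x)

lemma mem_H {i : ℤ} {x : U} (h : ∀ p, p ≠ i → comp M p x = 0) : x ∈ M.H i := by
  have h1 := sum_comp (M := M) x {i} (fun p hp => h p (by simpa using hp))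
  rw [Finset.sum_singleton] at h1
  rw [← h1]
  exact comp_mem i x

lemma sub_comp_mem {i : ℤ} {x : U} (hx : x ∈ M.fil i) : x - comp M i x ∈ M.fil (i + 1) := by
  apply mem_fil
  intro p hp
  rw [map_sub]
  by_cases h : p = i
  · subst h; rw [comp_comp, sub_self]
  · rw [comp_fil (by omega) hx, comp_ne (Ne.symm h) (comp_mem i x), sub_zero]

lemma comp_F (M : Mot U) (p : ℤ) (x : U) : comp M p (M.F x) = M.F (comp M (M.w - p) x) := by
  have h1 := sum_comp (M := M) x (supp M x) (fun p hp => comp_not_supp hp)
  conv_lhs => rw [← h1]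
  rw [map_sum, map_sum]
  by_cases hp : M.w - p ∈ supp M x
  · rw [Finset.sum_eq_single (M.w - p)]
    · refine comp_self ?_
      have := M.swap _ _ (comp_mem (M := M) (M.w - p) x)
      rwa [show M.w - (M.w - p) = p by ring] at this
    · intro q _ hq
      exact comp_ne (by omega) (M.swap _ _ (comp_mem q x))
    · intro h; exact absurd hp h
  · rw [comp_not_supp hp, map_zero]
    refine Finset.sum_eq_zero fun q hq => ?_
    refine comp_ne ?_ (M.swap _ _ (comp_mem q x))
    intro e
    apply hp
    have : M.w - p = q := by omega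
    rw [this]; exact hq

/-- the finite set of the degrees -/
lemma finite_degrees [FiniteDimensional ℂ U] (M : Mot U) : {p : ℤ | M.H p ≠ ⊥}.Finite :=
  WellFoundedGT.finite_ne_bot_of_iSupIndep M.decomp.submodule_iSupIndep

/-- the degrees of the Hodge decomposition -/
noncomputable def degs [FiniteDimensional ℂ U] (M : Mot U) : Finset ℤ := (finite_degrees M).toFinset

lemma comp_not_degs [FiniteDimensional ℂ U] {p : ℤ} (h : p ∉ degs M) (x : U) : comp M p x = 0 := by
  have h1 : M.H p = ⊥ := by
    by_contra h2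
    exact h ((finite_degrees M).mem_toFinset.2 h2)
  have := comp_mem (M := M) p x
  rw [h1] at this
  simpa using this

/-- additive maps which preserve the filtration -/
def PresFil (M : Mot U) (f : U →+ U) : Prop := ∀ i, ∀ x ∈ M.fil i, f x ∈ M.fil i

/-- the graded map of a filtered map -/
noncomputable def gr [FiniteDimensional ℂ U] (M : Mot U) (f : U →+ U) : U →+ U :=
  ∑ p ∈ degs M, (comp M p).toAddMonoidHom.comp (f.comp (comp M p).toAddMonoidHom)

variable [FiniteDimensional ℂ U]

lemma comp_gr (f : U →+ U) (p : ℤ) (x : U) : comp M p (gr M f x) = comp M p (f (comp M p x)) := by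
  simp only [gr, AddMonoidHom.finsetSum_apply, map_sum]
  by_cases hp : p ∈ degs M
  · rw [Finset.sum_eq_single p]
    · exact comp_comp p _
    · intro q _ hq
      exact comp_ne hq (comp_mem q _)
    · intro h; exact absurd hp h
  · rw [comp_not_degs hp, Finset.sum_eq_zero]
    intro q hq
    exact comp_ne (fun e => hp (by rw [← e]; exact hq)) (comp_mem q _)

lemma gr_H (f : U →+ U) {p : ℤ} {x : U} (hx : x ∈ M.H p) : gr M f x = comp M p (f x) := by
  apply comp_ext (M := M)
  intro q
  rw [comp_gr]
  by_cases h : p = q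
  · subst h; rw [comp_comp, comp_self hx]
  · rw [comp_ne h hx, map_zero, map_zero, comp_ne h (comp_mem p _)]

lemma gr_mem (f : U →+ U) {p : ℤ} {x : U} (hx : x ∈ M.H p) : gr M f x ∈ M.H p := by
  rw [gr_H f hx]; exact comp_mem p _

lemma gr_fil (f : U →+ U) : PresFil M (gr M f) := by
  intro i x hx
  apply mem_fil
  intro p hp
  rw [comp_gr, comp_fil hp hx, map_zero, map_zero]

lemma gr_sub {f : U →+ U} (hf : PresFil M f) {i : ℤ} {x : U} (hx : x ∈ M.fil i) : f x - gr M f x ∈ M.fil (i + 1) := by
  have h1 : f x - gr M f x ∈ M.fil i := Submodule.sub_mem _ (hf i x hx) (gr_fil f i x hx)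
  apply mem_fil
  intro p hp
  by_cases h : p < i
  · exact comp_fil h h1
  · have hpi : p = i := by omega
    subst hpi
    rw [map_sub, comp_gr, sub_eq_zero]
    have h2 := hf (p + 1) _ (sub_comp_mem hx)
    rw [map_sub] at h2
    have h3 := comp_fil (show p < p + 1 by omega) h2
    rw [map_sub, sub_eq_zero] at h3
    exact h3

lemma gr_comp {f g : U →+ U} (hf : PresFil M f) (hg : PresFil M g) (x : U) :
    gr M f (gr M g x) = gr M (f.comp g) x := by
  apply comp_ext (M := M)
  intro p
  rw [comp_gr, comp_gr, comp_gr]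
  have h1 : comp M p x ∈ M.fil p := M.H_le_fil le_rfl (comp_mem p x)
  have h2 := hf (p + 1) _ (sub_comp_mem (hg p _ h1))
  rw [map_sub] at h2
  have h3 := comp_fil (show p < p + 1 by omega) h2
  rw [map_sub, sub_eq_zero] at h3
  exact h3.symm

lemma gr_id (x : U) : gr M (AddMonoidHom.id U) x = x := by
  apply comp_ext (M := M)
  intro p
  rw [comp_gr, AddMonoidHom.id_apply, comp_comp]

end Pool.Agent.H15.CR
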