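import Pool.Agent.H15.CR.Defs
import Pool.Agent.H15.CR.Comp

/-! Semilinear automorphisms. -/

set_option autoImplicit false

namespace Pool.Agent.H15.CR

open Module Pool.Agent.H15.SP

variable {U : Type} [AddCommGroup U] [Module ℂ U] [Module ℚ U]

/-- semilinear additive automorphisms -/
def Semi (σ : ℂ ≃+* ℂ) (s : U ≃+ U) : Prop := ∀ (a : ℂ) (x : U), s (a • x) = σ a • s x

omit [Module ℚ U] in
lemma Semi.symm {σ : ℂ ≃+* ℂ} {s : U ≃+ U} (h : Semi σ s) : Semi σ.symm s.symm := by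
  intro a x
  apply s.injective
  rw [s.apply_symm_apply, h, σ.apply_symm_apply, s.apply_symm_apply]

lemma IsConj.semi {σ : ℂ ≃+* ℂ} {L : Submodule ℚ U} {s : U ≃+ U} (hs : IsConj σ L s) : Semi σ s := hs.1

lemma IsRat.conj {L : Submodule ℚ U} (hL : IsRat L) (σ : ℂ ≃+* ℂ) : ∃ s : U ≃+ U, IsConj σ L s := by
  obtain ⟨n, v, rfl⟩ := hL
  let e : U ≃+ (Fin n → ℂ) := v.equivFun.toAddEquiv
  have he : ∀ (a : ℂ) x, e (a • x) = a • e x := fun a x => map_smul v.equivFun a x
  have he' : ∀ (a : ℂ) x, e.symm (a • x) = a • e.symm x := fun a x => map_smul v.equivFun.symm a x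
  let τ : (Fin n → ℂ) ≃+ (Fin n → ℂ) := AddEquiv.piCongrRight fun _ => σ.toAddEquiv
  have hτ : ∀ x i, τ x i = σ (x i) := fun x i => rfl
  refine ⟨(e.trans τ).trans e.symm, ?_, ?_⟩
  · intro a x
    simp only [AddEquiv.trans_apply, he]
    rw [← he']
    congr 1
    funext i
    rw [hτ, Pi.smul_apply, Pi.smul_apply, smul_eq_mul, map_mul, hτ, smul_eq_mul]
  · intro x hx
    rw [AddEquiv.trans_apply, AddEquiv.trans_apply, AddEquiv.symm_apply_eq]
    funext i
    rw [hτ]
    have key : ∃ q : ℚ, e x i = q := by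
      induction hx using Submodule.span_induction with
      | mem x hx =>
        obtain ⟨j, rfl⟩ := hx
        have : e (v j) i = if j = i then 1 else 0 := by simp [e, eq_comm]
        rw [this]
        split_ifs
        · exact ⟨1, by simp⟩
        · exact ⟨0, by simp⟩
      | zero => exact ⟨0, by simp⟩
      | add x y _ _ h1 h2 =>
        obtain ⟨q, hq⟩ := h1
        obtain ⟨q', hq'⟩ := h2
        exact ⟨q + q', by rw [map_add, Pi.add_apply, hq, hq']; push_cast; rfl⟩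
      | smul a x _ h1 =>
        obtain ⟨q, hq⟩ := h1
        refine ⟨a * q, ?_⟩
        rw [← Rat.cast_smul_eq_qsmul ℂ, he, Pi.smul_apply, hq, smul_eq_mul]
        push_cast
        rfl
    obtain ⟨q, hq⟩ := key
    rw [hq, map_ratCast]

lemma conj_mem {σ : ℂ ≃+* ℂ} {L : Submodule ℚ U} {s : U ≃+ U} (hs : IsConj σ L s) {W : Submodule ℂ U}
    (hW : W = Submodule.span ℂ ((L : Set U) ∩ (W : Set U))) {x : U} (hx : x ∈ W) : s x ∈ W := by
  have h1 : ∀ x ∈ Submodule.span ℂ ((L : Set U) ∩ (W : Set U)), s x ∈ W := by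
    intro x hx
    induction hx using Submodule.span_induction with
    | mem x hx => rw [hs.2 x hx.1]; exact hx.2
    | zero => rw [map_zero]; exact Submodule.zero_mem _
    | add x y _ _ h1 h2 => rw [map_add]; exact Submodule.add_mem _ h1 h2
    | smul a x _ h1 => rw [hs.1]; exact Submodule.smul_mem _ _ h1
  exact h1 x (by rw [← hW]; exact hx)

lemma IsConj.symm {σ : ℂ ≃+* ℂ} {L : Submodule ℚ U} {s : U ≃+ U} (hs : IsConj σ L s) : IsConj σ.symm L s.symm :=
  ⟨Semi.symm hs.semi, fun x hx => by rw [AddEquiv.symm_apply_eq, hs.2 x hx]⟩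

lemma conj_fil {M : Mot U} {σ : ℂ ≃+* ℂ} {s : U ≃+ U} (hs : IsConj σ M.D s) : PresFil M s.toAddMonoidHom := by
  intro i x hx
  exact conj_mem hs (M.fil_rat i) hx

lemma conj_F {M : Mot U} {σ : ℂ ≃+* ℂ} {s : U ≃+ U} (hs : IsConj σ M.B s) (x : U) : s (M.F x) = M.F (s x) := by
  have h1 : ∀ x ∈ Submodule.span ℂ (M.B : Set U), s (M.F x) = M.F (s x) := by
    intro x hx
    induction hx using Submodule.span_induction with
    | mem x hx => rw [hs.2 x hx, hs.2 _ (M.F_B x hx)]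
    | zero => simp
    | add x y _ _ h1 h2 => rw [map_add, map_add, map_add, map_add, h1, h2]
    | smul a x _ h1 => rw [map_smul, hs.1, hs.1, h1, map_smul]
  exact h1 x (by rw [M.B_rat.span_eq_top]; trivial)

/-- the linear automorphism `s s'⁻¹` -/
def lin {σ : ℂ ≃+* ℂ} (s s' : U ≃+ U) (hs : Semi σ s) (hs' : Semi σ s') : U ≃ₗ[ℂ] U where
  toFun x := s (s'.symm x)
  map_add' x y := by rw [map_add, map_add]
  map_smul' a x := by
    rw [hs'.symm, hs, σ.apply_symm_apply]; rfl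
  invFun x := s' (s.symm x)
  left_inv x := by simp
  right_inv x := by simp

lemma lin_apply {σ : ℂ ≃+* ℂ} (s s' : U ≃+ U) (hs : Semi σ s) (hs' : Semi σ s') (x : U) :
    lin s s' hs hs' x = s (s'.symm x) := rfl

lemma lin_inv_apply {σ : ℂ ≃+* ℂ} (s s' : U ≃+ U) (hs : Semi σ s) (hs' : Semi σ s') (x : U) :
    (lin s s' hs hs')⁻¹ x = s' (s.symm x) := rfl

/-- `F_∞` as a linear automorphism -/
def Feq (M : Mot U) : U ≃ₗ[ℂ] U where
  toFun x := M.F x
  map_add' x y := map_add M.F x y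
  map_smul' a x := map_smul M.F a x
  invFun x := M.F x
  left_inv x := M.F_sq x
  right_inv x := M.F_sq x

lemma Feq_apply (M : Mot U) (x : U) : Feq M x = M.F x := rfl

variable [FiniteDimensional ℂ U]

/-- the graded semilinear automorphism -/
noncomputable def grEq (M : Mot U) {σ : ℂ ≃+* ℂ} {s : U ≃+ U} (hs : IsConj σ M.D s) : U ≃+ U where
  toFun := gr M s.toAddMonoidHom
  invFun := gr M s.symm.toAddMonoidHom
  left_inv x := by
    rw [gr_comp (conj_fil hs.symm) (conj_fil hs)]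
    have : s.symm.toAddMonoidHom.comp s.toAddMonoidHom = AddMonoidHom.id U := by ext y; simp
    rw [this, gr_id]
  right_inv x := by
    rw [gr_comp (conj_fil hs) (conj_fil hs.symm)]
    have : s.toAddMonoidHom.comp s.symm.toAddMonoidHom = AddMonoidHom.id U := by ext y; simp
    rw [this, gr_id]
  map_add' x y := map_add _ x y

lemma grEq_apply (M : Mot U) {σ : ℂ ≃+* ℂ} {s : U ≃+ U} (hs : IsConj σ M.D s) (x : U) :
    grEq M hs x = gr M s.toAddMonoidHom x := rfl

lemma grEq_symm_apply (M : Mot U) {σ : ℂ ≃+* ℂ} {s : U ≃+ U} (hs : IsConj σ M.D s) (x : U) :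
    (grEq M hs).symm x = gr M s.symm.toAddMonoidHom x := rfl

lemma grEq_semi (M : Mot U) {σ : ℂ ≃+* ℂ} {s : U ≃+ U} (hs : IsConj σ M.D s) : Semi σ (grEq M hs) := by
  intro a x
  rw [grEq_apply, grEq_apply]
  apply comp_ext (M := M)
  intro p
  have h1 : s.toAddMonoidHom (a • comp M p x) = σ a • s.toAddMonoidHom (comp M p x) := hs.1 a _
  rw [comp_gr, map_smul (comp M p) a x, h1, map_smul, map_smul (comp M p) (σ a), comp_gr]

lemma grEq_lat (M : Mot U) {σ : ℂ ≃+* ℂ} {s : U ≃+ U} (hs : IsConj σ M.D s) {p : ℤ} {y : U} (hy : y ∈ grLat M p) :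
    grEq M hs y = y := by
  obtain ⟨hy, x, hx, h⟩ := hy
  rw [grEq_apply, gr_H _ hy]
  have h1 := conj_fil hs (p + 1) _ h
  have h2 : s.toAddMonoidHom (x - y) = x - s.toAddMonoidHom y := by
    rw [map_sub]
    congr 1
    exact hs.2 x hx
  rw [h2] at h1
  have h3 : s.toAddMonoidHom y - y ∈ M.fil (p + 1) := by
    have : s.toAddMonoidHom y - y = (x - y) - (x - s.toAddMonoidHom y) := by abel
    rw [this]
    exact Submodule.sub_mem _ h h1
  have h4 := comp_fil (show p < p + 1 by omega) h3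
  rw [map_sub, comp_self hy, sub_eq_zero] at h4
  exact h4

/-- the unipotent automorphism `s_gr s_D⁻¹` -/
noncomputable def uEq (M : Mot U) {σ : ℂ ≃+* ℂ} {s : U ≃+ U} (hs : IsConj σ M.D s) : U ≃ₗ[ℂ] U :=
  lin (grEq M hs) s (grEq_semi M hs) hs.semi

lemma uEq_apply (M : Mot U) {σ : ℂ ≃+* ℂ} {s : U ≃+ U} (hs : IsConj σ M.D s) (x : U) :
    uEq M hs (s x) = grEq M hs x := by
  change grEq M hs (s.symm (s x)) = _
  rw [s.symm_apply_apply]

lemma uEq_unip (M : Mot U) {σ : ℂ ≃+* ℂ} {s : U ≃+ U} (hs : IsConj σ M.D s) : IsUnip M (uEq M hs) := by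
  intro p x hx
  have h1 : s.symm x ∈ M.fil p := conj_fil hs.symm p x hx
  have h2 := gr_sub (conj_fil hs) h1
  have h3 : s.toAddMonoidHom (s.symm x) = x := s.apply_symm_apply x
  rw [h3] at h2
  have h4 : uEq M hs x = gr M s.toAddMonoidHom (s.symm x) := rfl
  rw [h4]
  have h5 := Submodule.neg_mem _ h2
  rwa [neg_sub] at h5

end Pool.Agent.H15.CR
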