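import Pool.Agent.H15.CR.Tensor

/-! Constructions and the Galois action. -/

set_option autoImplicit false

namespace Pool.Agent.H15.CR

open Module Pool.Agent.H15.SP

section det

variable {U : Type} [AddCommGroup U] [Module ℂ U]

lemma detOn_eq (f : U ≃ₗ[ℂ] U) (W : Submodule ℂ U) (h : ∀ x ∈ W, (f : U →ₗ[ℂ] U) x ∈ W) :
    detOn f W = LinearMap.det ((f : U →ₗ[ℂ] U).restrict h) := by
  rw [detOn, dif_pos h]

lemma detOn_basis (f : U ≃ₗ[ℂ] U) (W : Submodule ℂ U) {n : ℕ} (x : Fin n → U) (hx : ∀ j, x j ∈ W)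
    (hind : LinearIndependent ℂ x) (hspan : ∀ z ∈ W, ∃ a : Fin n → ℂ, z = ∑ k, a k • x k)
    (Λ : Matrix (Fin n) (Fin n) ℂ) (hΛ : ∀ j, f (x j) = ∑ i, Λ i j • x i) : detOn f W = Λ.det := by
  have h : ∀ z ∈ W, (f : U →ₗ[ℂ] U) z ∈ W := by
    intro z hz
    obtain ⟨a, rfl⟩ := hspan z hz
    rw [map_sum]
    refine Submodule.sum_mem _ fun j _ => ?_
    rw [map_smul]
    refine Submodule.smul_mem _ _ ?_
    have : (f : U →ₗ[ℂ] U) (x j) = ∑ i, Λ i j • x i := hΛ j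
    rw [this]
    exact Submodule.sum_mem _ fun i _ => Submodule.smul_mem _ _ (hx i)
  rw [detOn_eq f W h]
  have hind' : LinearIndependent ℂ (fun j => (⟨x j, hx j⟩ : W)) := by
    apply LinearIndependent.of_comp W.subtype
    exact hind
  have hspan' : ⊤ ≤ Submodule.span ℂ (Set.range (fun j => (⟨x j, hx j⟩ : W))) := by
    rintro ⟨z, hz⟩ -
    obtain ⟨a, ha⟩ := hspan z hz
    have : (⟨z, hz⟩ : W) = ∑ k, a k • (⟨x k, hx k⟩ : W) := by
      apply Subtype.ext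
      simp only [Submodule.coe_sum, Submodule.coe_smul]
      exact ha
    rw [this]
    exact Submodule.sum_mem _ fun k _ => Submodule.smul_mem _ _ (Submodule.subset_span ⟨k, rfl⟩)
  let B := Basis.mk hind' hspan'
  rw [← LinearMap.det_toMatrix B]
  congr 1
  ext i j
  rw [LinearMap.toMatrix_apply]
  have h1 : ((f : U →ₗ[ℂ] U).restrict h) (B j) = ∑ i, Λ i j • B i := by
    apply Subtype.ext
    simp only [LinearMap.coe_restrict_apply, Submodule.coe_sum, Submodule.coe_smul]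
    have hB : ∀ j, ((B j : W) : U) = x j := fun j => by simp [B]
    simp_rw [hB]
    exact hΛ j
  rw [h1, map_sum, Finsupp.finsetSum_apply]
  simp [Finsupp.single_apply]

end det

variable {U : Type} [AddCommGroup U] [Module ℂ U] [Module ℚ U] [FiniteDimensional ℂ U]
variable {V : Type} [AddCommGroup V] [Module ℂ V] [Module ℚ V] [FiniteDimensional ℂ V]

omit [FiniteDimensional ℂ U] in
lemma levi_fil {M : Mot U} {g : U ≃ₗ[ℂ] U} (hg : IsLevi M g) {i : ℤ} {x : U} (hx : x ∈ M.fil i) : g x ∈ M.fil i := by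
  have : M.fil i ≤ (M.fil i).comap (g : U →ₗ[ℂ] U) := by
    refine iSup₂_le fun p hp => ?_
    intro y hy
    exact M.H_le_fil hp (hg p y hy)
  exact this hx

omit [FiniteDimensional ℂ U] in
lemma unip_fil {M : Mot U} {g : U ≃ₗ[ℂ] U} (hg : IsUnip M g) {i : ℤ} {x : U} (hx : x ∈ M.fil i) : g x ∈ M.fil i := by
  have h1 := hg i x hx
  have : g x = (g x - x) + x := by abel
  rw [this]
  exact Submodule.add_mem _ (M.fil_anti (by omega) h1) hx

/-- the conjugate of `F_∞` for the graded rational structure -/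
noncomputable def Fconj (M : Mot U) {σ : ℂ ≃+* ℂ} {s : U ≃+ U} (hs : IsConj σ M.D s) (x : U) : U :=
  grEq M hs (M.F ((grEq M hs).symm x))

lemma Fconj_H {M : Mot U} {σ : ℂ ≃+* ℂ} {s : U ≃+ U} (hs : IsConj σ M.D s) {p : ℤ} {x : U} (hx : x ∈ M.H p) :
    Fconj M hs x ∈ M.H (M.w - p) :=
  gr_mem _ (M.swap p _ (gr_mem _ hx))

lemma Fconj_sq {M : Mot U} {σ : ℂ ≃+* ℂ} {s : U ≃+ U} (hs : IsConj σ M.D s) (x : U) :
    Fconj M hs (Fconj M hs x) = x := by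
  rw [Fconj, Fconj, AddEquiv.symm_apply_apply, M.F_sq, AddEquiv.apply_symm_apply]

/-- `s_D F_∞ s_D⁻¹ = g⁻¹ F_∞ g` -/
lemma g_conj {M : Mot U} {σ : ℂ ≃+* ℂ} {sB sD : U ≃+ U} (hB : IsConj σ M.B sB)
    {g : U ≃ₗ[ℂ] U} (hg : ∀ x, g (sD x) = sB x) (x : U) :
    g⁻¹ (M.F (g x)) = sD (M.F (sD.symm x)) := by
  have h1 : g x = sB (sD.symm x) := by
    rw [← hg, sD.apply_symm_apply]
  have h2 : g (sD (M.F (sD.symm x))) = M.F (g x) := by
    rw [hg, conj_F hB, h1]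
  rw [← h2]
  exact g.symm_apply_apply _

section

variable {M : Mot U} {G : Subgroup (U ≃ₗ[ℂ] U)} {T : Mot V} {ρ : G →* (V ≃ₗ[ℂ] V)} (h : IsConstruction M G T ρ)
  {σ : ℂ ≃+* ℂ} {sB sD : U ≃+ U} (hB : IsConj σ M.B sB) (hD : IsConj σ M.D sD)
  {sB' sD' : V ≃+ V} (hB' : IsConj σ T.B sB') (hD' : IsConj σ T.D sD')
  {F g u : G} (hF : (F : U ≃ₗ[ℂ] U) = Feq M) (hg : (g : U ≃ₗ[ℂ] U) = lin sB sD hB.semi hD.semi)
  (hu : (u : U ≃ₗ[ℂ] U) = uEq M hD)

include h hB hD hB' hD' hF hg hu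

omit [FiniteDimensional ℂ V] in
lemma rho_g (y : V) : ρ g (sD' y) = sB' y := by
  refine h.gal σ g sB sD sB' sD' hB hD hB' hD' ?_ y
  intro x
  rw [hg]
  change sB (sD.symm (sD x)) = sB x
  rw [sD.symm_apply_apply]

omit [FiniteDimensional ℂ V] in
/-- the element `u g⁻¹ F g u⁻¹` of the structure group is `s_gr F_∞ s_gr⁻¹` -/
lemma l_apply (x : U) : ((u * g⁻¹ * F * g * u⁻¹ : G) : U ≃ₗ[ℂ] U) x = Fconj M hD x := by
  have h0 : ∀ x, (g : U ≃ₗ[ℂ] U) (sD x) = sB x := by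
    intro x
    rw [hg]
    change sB (sD.symm (sD x)) = sB x
    rw [sD.symm_apply_apply]
  have h1 := g_conj hB h0 ((u : U ≃ₗ[ℂ] U)⁻¹ x)
  have h2 : ((u * g⁻¹ * F * g * u⁻¹ : G) : U ≃ₗ[ℂ] U) x =
      (u : U ≃ₗ[ℂ] U) ((g : U ≃ₗ[ℂ] U)⁻¹ ((F : U ≃ₗ[ℂ] U) ((g : U ≃ₗ[ℂ] U) ((u : U ≃ₗ[ℂ] U)⁻¹ x)))) := rfl
  rw [h2, hF]
  change (u : U ≃ₗ[ℂ] U) ((g : U ≃ₗ[ℂ] U)⁻¹ (M.F ((g : U ≃ₗ[ℂ] U) ((u : U ≃ₗ[ℂ] U)⁻¹ x)))) = _
  rw [h1, hu, uEq_apply, Fconj]
  congr 2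
  change sD.symm (sD ((grEq M hD).symm x)) = _
  rw [sD.symm_apply_apply]

omit [FiniteDimensional ℂ V] in
lemma l_levi : IsLevi M ((F * (u * g⁻¹ * F * g * u⁻¹) : G) : U ≃ₗ[ℂ] U) := by
  intro p x hx
  have h1 : ((F * (u * g⁻¹ * F * g * u⁻¹) : G) : U ≃ₗ[ℂ] U) x =
      (F : U ≃ₗ[ℂ] U) (((u * g⁻¹ * F * g * u⁻¹ : G) : U ≃ₗ[ℂ] U) x) := rfl
  rw [h1, l_apply h hB hD hB' hD' hF hg hu, hF]
  have h2 := M.swap _ _ (Fconj_H hD hx)
  rw [show M.w - (M.w - p) = p by ring] at h2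
  exact h2

lemma rho_u (y : V) : ρ u y = uEq T hD' y := by
  -- `k = ρ(u) u_T⁻¹`
  have hunip : IsUnip T (ρ u) := h.unip u (by rw [hu]; exact uEq_unip M hD)
  have hk : ∀ p, ∀ x ∈ T.fil p, ρ u ((uEq T hD')⁻¹ x) - x ∈ T.fil (p + 1) := by
    intro p x hx
    have h1 : (uEq T hD')⁻¹ x ∈ T.fil p := by
      change sD' ((grEq T hD').symm x) ∈ T.fil p
      exact conj_fil hD' _ _ (gr_fil _ _ _ hx)
    have h2 := hunip p _ h1
    have h3 := uEq_unip T hD' p _ h1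
    have h4 : uEq T hD' ((uEq T hD')⁻¹ x) = x := (uEq T hD').apply_symm_apply x
    rw [h4] at h3
    have : ρ u ((uEq T hD')⁻¹ x) - x = (ρ u ((uEq T hD')⁻¹ x) - (uEq T hD')⁻¹ x) - (x - (uEq T hD')⁻¹ x) := by abel
    rw [this]
    exact Submodule.sub_mem _ h2 h3
  -- formula for `ρ(l)`
  have hl : ∀ y, ρ (F * (u * g⁻¹ * F * g * u⁻¹)) (ρ u ((uEq T hD')⁻¹ y)) =
      T.F (ρ u ((uEq T hD')⁻¹ (Fconj T hD' y))) := by
    intro y
    have e1 : ρ (F * (u * g⁻¹ * F * g * u⁻¹)) (ρ u ((uEq T hD')⁻¹ y)) =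
        ρ F (ρ u ((ρ g)⁻¹ (ρ F (ρ g ((uEq T hD')⁻¹ y))))) := by
      have e0 : ∀ z, (ρ u)⁻¹ (ρ u z) = z := fun z => (ρ u).symm_apply_apply z
      simp only [map_mul, map_inv, LinearEquiv.mul_apply, e0]
    rw [e1, h.frob F (fun x => by rw [hF]; rfl), h.frob F (fun x => by rw [hF]; rfl),
      g_conj hB' (rho_g h hB hD hB' hD' hF hg hu)]
    congr 2
    change sD' (T.F (sD'.symm (sD' ((grEq T hD').symm y)))) = sD' ((grEq T hD').symm (Fconj T hD' y))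
    rw [sD'.symm_apply_apply, Fconj, AddEquiv.symm_apply_apply]
  have hlevi := h.levi _ (l_levi h hB hD hB' hD' hF hg hu)
  have key : ∀ p, ∀ x ∈ T.H p, ρ u ((uEq T hD')⁻¹ x) = x := by
    intro p x hx
    have h1 : ρ u ((uEq T hD')⁻¹ x) ∈ T.fil p := by
      have := hk p x (T.H_le_fil le_rfl hx)
      have e : ρ u ((uEq T hD')⁻¹ x) = (ρ u ((uEq T hD')⁻¹ x) - x) + x := by abel
      rw [e]
      exact Submodule.add_mem _ (T.fil_anti (by omega) this) (T.H_le_fil le_rfl hx)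
    have h2 : T.F (ρ u ((uEq T hD')⁻¹ x)) ∈ T.fil (T.w - p) := by
      have h3 := hl (Fconj T hD' x)
      rw [Fconj_sq] at h3
      rw [← h3]
      apply levi_fil hlevi
      have h4 := T.H_le_fil le_rfl (Fconj_H hD' hx)
      have h5 := hk _ _ h4
      have e : ρ u ((uEq T hD')⁻¹ (Fconj T hD' x)) =
        (ρ u ((uEq T hD')⁻¹ (Fconj T hD' x)) - Fconj T hD' x) + Fconj T hD' x := by abel
      rw [e]
      exact Submodule.add_mem _ (T.fil_anti (by omega) h5) h4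
    have h3 : ρ u ((uEq T hD')⁻¹ x) ∈ T.low p := by
      have := T.F_fil h2
      rw [T.F_sq, show T.w - (T.w - p) = p by ring] at this
      exact this
    have h4 : ρ u ((uEq T hD')⁻¹ x) ∈ T.H p := by
      apply mem_H
      intro q hq
      rcases lt_or_gt_of_ne hq with hlt | hgt
      · exact comp_fil hlt h1
      · exact comp_low hgt h3
    have h5 : ρ u ((uEq T hD')⁻¹ x) - x = 0 := by
      have h6 := comp_fil (show p < p + 1 by omega) (hk p x (T.H_le_fil le_rfl hx))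
      rwa [comp_self (Submodule.sub_mem _ h4 hx)] at h6
    exact sub_eq_zero.1 h5
  have hall : ∀ x, ρ u ((uEq T hD')⁻¹ x) = x := by
    intro x
    have e := sum_comp (M := T) x (supp T x) (fun p hp => comp_not_supp hp)
    conv_lhs => rw [← e]
    conv_rhs => rw [← e]
    rw [map_sum, map_sum]
    exact Finset.sum_congr rfl fun p _ => key p _ (comp_mem p x)
  have := hall (uEq T hD' y)
  have e : (uEq T hD')⁻¹ (uEq T hD' y) = y := (uEq T hD').symm_apply_apply y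
  rwa [e] at this

lemma rho_l (y : V) : ρ (F * (u * g⁻¹ * F * g * u⁻¹)) y = T.F (Fconj T hD' y) := by
  have e1 : ρ (F * (u * g⁻¹ * F * g * u⁻¹)) y =
      ρ F (ρ u ((ρ g)⁻¹ (ρ F (ρ g ((ρ u)⁻¹ y))))) := by
    simp only [map_mul, map_inv, LinearEquiv.mul_apply]
  have e2 : (ρ u)⁻¹ y = sD' ((grEq T hD').symm y) := by
    have h1 := rho_u h hB hD hB' hD' hF hg hu (sD' ((grEq T hD').symm y))
    rw [uEq_apply, AddEquiv.apply_symm_apply] at h1
    conv_lhs => rw [← h1]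
    exact (ρ u).symm_apply_apply _
  rw [e1, h.frob F (fun x => by rw [hF]; rfl), h.frob F (fun x => by rw [hF]; rfl), e2,
    g_conj hB' (rho_g h hB hD hB' hD' hF hg hu), sD'.symm_apply_apply, rho_u h hB hD hB' hD' hF hg hu,
    uEq_apply, Fconj]

end

end Pool.Agent.H15.CR
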