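import Pool.Agent.H15.SP.Defs

/-!
# Motives with tensors, constructions, Hodge periods

We use the realizations `Mot U` of a pure motive, Deligne's periods `Mot.IsPeriod` and rational structures `IsRat` from
`Pool.Agent.H15.SP.Defs`.
-/

set_option autoImplicit false

namespace Pool.Agent.H15.CR

open Module Pool.Agent.H15.SP

variable {U : Type} [AddCommGroup U] [Module ℂ U] [Module ℚ U]

/-- `s` is the `σ`-semilinear automorphism of `U = L ⊗ ℂ` which is the identity on the rational structure `L` -/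
def IsConj (σ : ℂ ≃+* ℂ) (L : Submodule ℚ U) (s : U ≃+ U) : Prop :=
  (∀ (a : ℂ) (x : U), s (a • x) = σ a • s x) ∧ ∀ x ∈ L, s x = x

/-- The multilinear form `t` on `U = M ⊗ ℂ` is the realization of a morphism of motives `M^{⊗ k} → ℚ(-k w / 2)`: it is
rational on `M_B`, rational up to a constant on `M_dR`, compatible with `F_∞` up to a constant (in practice a sign)
and with the Hodge decomposition. -/
structure IsTensor (M : Mot U) {k : ℕ} (t : MultilinearMap ℂ (fun _ : Fin k => U) ℂ) : Prop where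
  betti : ∀ x : Fin k → U, (∀ i, x i ∈ M.B) → ∃ q : ℚ, t x = q
  deRham : ∃ κ : ℂ, κ ≠ 0 ∧ ∀ x : Fin k → U, (∀ i, x i ∈ M.D) → ∃ q : ℚ, κ * t x = q
  frob : ∃ ε : ℂ, ε ≠ 0 ∧ ∀ x : Fin k → U, t (fun i => M.F (x i)) = ε * t x
  hodge : ∀ (p : Fin k → ℤ) (x : Fin k → U), (∀ i, x i ∈ M.H (p i)) → 2 * ∑ i, p i ≠ k * M.w → t x = 0

/-- the structure group of the family `t` of tensors: all automorphisms of `U` which preserve every `t j` up to a
constant -/
def strGroup {J : Type} {k : J → ℕ} (t : ∀ j, MultilinearMap ℂ (fun _ : Fin (k j) => U) ℂ) :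
    Subgroup (U ≃ₗ[ℂ] U) where
  carrier := {g | ∀ j, ∃ ν : ℂ, ν ≠ 0 ∧ ∀ x, t j (fun i => g (x i)) = ν * t j x}
  mul_mem' := by
    intro g h hg hh j
    obtain ⟨ν, hν, h1⟩ := hg j
    obtain ⟨μ, hμ, h2⟩ := hh j
    exact ⟨ν * μ, mul_ne_zero hν hμ, fun x => by
      have h3 := h1 (fun i => h (x i))
      rw [h2] at h3
      rw [mul_assoc, ← h3]
      rfl⟩
  one_mem' := fun j => ⟨1, one_ne_zero, fun x => by rw [one_mul]; rfl⟩
  inv_mem' := by
    intro g hg j
    obtain ⟨ν, hν, h1⟩ := hg j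
    refine ⟨ν⁻¹, inv_ne_zero hν, fun x => ?_⟩
    have h3 := h1 (fun i => g⁻¹ (x i))
    have h4 : (fun i => g (g⁻¹ (x i))) = x := by funext i; exact g.apply_symm_apply (x i)
    rw [h4] at h3
    rw [h3, inv_mul_cancel_left₀ hν]

/-- `g` preserves the Hodge decomposition of `M` -/
def IsLevi (M : Mot U) (g : U ≃ₗ[ℂ] U) : Prop := ∀ p, ∀ x ∈ M.H p, g x ∈ M.H p

/-- `g` preserves the Hodge filtration of `M` and is the identity on the graded pieces -/
def IsUnip (M : Mot U) (g : U ≃ₗ[ℂ] U) : Prop := ∀ p, ∀ x ∈ M.fil p, g x - x ∈ M.fil (p + 1)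

/-- The motive `T` is built from the motive `M` with structure group `G` by the representation `ρ` of `G`: `ρ` maps
`F_∞` to `F_∞`; for the automorphisms `σ` of `ℂ` it maps the automorphism `σ_B σ_D⁻¹` of `U`, which measures the
difference of the two rational structures, to the corresponding one of `T`; and it is compatible with the Hodge
decompositions and filtrations. -/
structure IsConstruction (M : Mot U) (G : Subgroup (U ≃ₗ[ℂ] U)) {V : Type} [AddCommGroup V] [Module ℂ V] [Module ℚ V]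
    (T : Mot V) (ρ : G →* (V ≃ₗ[ℂ] V)) : Prop where
  frob : ∀ g : G, (∀ x, (g : U ≃ₗ[ℂ] U) x = M.F x) → ∀ y, ρ g y = T.F y
  gal : ∀ (σ : ℂ ≃+* ℂ) (g : G) (sB sD : U ≃+ U) (sB' sD' : V ≃+ V), IsConj σ M.B sB → IsConj σ M.D sD →
    IsConj σ T.B sB' → IsConj σ T.D sD' → (∀ x, (g : U ≃ₗ[ℂ] U) (sD x) = sB x) → ∀ y, ρ g (sD' y) = sB' y
  levi : ∀ g : G, IsLevi M g → IsLevi T (ρ g)
  unip : ∀ g : G, IsUnip M g → IsUnip T (ρ g)

/-- the rational structure of `H^{p, w - p}` given by `gr^p M_dR` -/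
def grLat (M : Mot U) (p : ℤ) : Submodule ℚ U where
  carrier := {y | y ∈ M.H p ∧ ∃ x ∈ M.D, x - y ∈ M.fil (p + 1)}
  add_mem' := by
    rintro y y' ⟨hy, x, hx, h⟩ ⟨hy', x', hx', h'⟩
    refine ⟨Submodule.add_mem _ hy hy', x + x', M.D.add_mem hx hx', ?_⟩
    rw [add_sub_add_comm]
    exact Submodule.add_mem _ h h'
  zero_mem' := ⟨Submodule.zero_mem _, 0, M.D.zero_mem, by simp⟩
  smul_mem' := by
    rintro q y ⟨hy, x, hx, h⟩
    refine ⟨?_, q • x, M.D.smul_mem q hx, ?_⟩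
    · rw [← Rat.cast_smul_eq_qsmul ℂ]; exact Submodule.smul_mem _ _ hy
    · rw [← smul_sub, ← Rat.cast_smul_eq_qsmul ℂ]; exact Submodule.smul_mem _ _ h

/-- the vectors `e k` are a basis of the rational vector space `L` -/
def IsBasisOf {n : ℕ} (e : Fin n → U) (L : Submodule ℚ U) : Prop :=
  (∀ k, e k ∈ L) ∧ ∀ x ∈ L, ∃! a : Fin n → ℚ, x = ∑ k, (a k : ℂ) • e k

/-- `d` is a Hodge period `δ_p(M)`: the determinant of `F_∞ : H^{p, w - p} → H^{w - p, p}` in rational bases of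
`gr^p M_dR` and `gr^{w - p} M_dR` -/
def IsHodgePeriod (M : Mot U) (p : ℤ) (d : ℂ) : Prop :=
  ∃ (n : ℕ) (x y : Fin n → U) (A : Matrix (Fin n) (Fin n) ℂ), IsBasisOf x (grLat M p) ∧
    IsBasisOf y (grLat M (M.w - p)) ∧ (∀ j, M.F (x j) = ∑ k, A k j • y k) ∧ d = A.det

/-- `δ` is the period determinant `δ(M)`: the determinant of a basis of `M_B` in terms of a basis of `M_dR` -/
def IsPeriodDet (M : Mot U) (δ : ℂ) : Prop :=
  ∃ (n : ℕ) (e v : Fin n → U) (P : Matrix (Fin n) (Fin n) ℂ), IsBasisOf e M.B ∧ IsBasisOf v M.D ∧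
    (∀ j, e j = ∑ k, P k j • v k) ∧ δ = P.det

/-- the determinant of `f` on the stable subspace `W` (and `0` if `W` is not stable) -/
noncomputable def detOn (f : U ≃ₗ[ℂ] U) (W : Submodule ℂ U) : ℂ := by
  classical
  exact if h : ∀ x ∈ W, (f : U →ₗ[ℂ] U) x ∈ W then LinearMap.det ((f : U →ₗ[ℂ] U).restrict h) else 0

/-- the determinant of `f` on the quotient by the stable subspace `W` (and `0` if `W` is not stable) -/
noncomputable def detQuot (f : U ≃ₗ[ℂ] U) (W : Submodule ℂ U) : ℂ := by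
  classical
  exact if h : W ≤ W.comap (f : U →ₗ[ℂ] U) then LinearMap.det (W.mapQ W (f : U →ₗ[ℂ] U) h) else 0

end Pool.Agent.H15.CR
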