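import Pool.Agent.H15.CR.Constr

/-! Determinants on subspaces and quotients. -/

set_option autoImplicit false

namespace Pool.Agent.H15.CR

open Module Pool.Agent.H15.SP

section lin

variable {U : Type} [AddCommGroup U] [Module ℂ U]

lemma detQuot_eq (f : U ≃ₗ[ℂ] U) (W : Submodule ℂ U) (h : W ≤ W.comap (f : U →ₗ[ℂ] U)) :
    detQuot f W = LinearMap.det (W.mapQ W (f : U →ₗ[ℂ] U) h) := by
  rw [detQuot, dif_pos h]

lemma detQuot_basis (f : U ≃ₗ[ℂ] U) (W : Submodule ℂ U) (h : W ≤ W.comap (f : U →ₗ[ℂ] U)) {n : ℕ} (v : Fin n → U)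
    (hind : ∀ a : Fin n → ℂ, ∑ k, a k • v k ∈ W → a = 0) (hspan : ∀ z, ∃ a : Fin n → ℂ, z - ∑ k, a k • v k ∈ W)
    (Λ : Matrix (Fin n) (Fin n) ℂ) (hΛ : ∀ j, f (v j) - ∑ i, Λ i j • v i ∈ W) : detQuot f W = Λ.det := by
  rw [detQuot_eq f W h]
  have hind' : LinearIndependent ℂ (fun j => W.mkQ (v j)) := by
    rw [Fintype.linearIndependent_iff]
    intro a ha i
    have h1 : W.mkQ (∑ k, a k • v k) = 0 := by rw [map_sum]; simpa using ha
    rw [Submodule.mkQ_apply, Submodule.Quotient.mk_eq_zero] at h1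
    rw [hind a h1]; rfl
  have hspan' : ⊤ ≤ Submodule.span ℂ (Set.range (fun j => W.mkQ (v j))) := by
    rintro z -
    obtain ⟨z, rfl⟩ := W.mkQ_surjective z
    obtain ⟨a, ha⟩ := hspan z
    have h1 : W.mkQ (z - ∑ k, a k • v k) = 0 := by
      rw [Submodule.mkQ_apply, Submodule.Quotient.mk_eq_zero]; exact ha
    rw [map_sub, sub_eq_zero] at h1
    rw [h1, map_sum]
    refine Submodule.sum_mem _ fun k _ => ?_
    rw [map_smul]
    exact Submodule.smul_mem _ _ (Submodule.subset_span ⟨k, rfl⟩)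
  let B := Basis.mk hind' hspan'
  have hB : ∀ j, B j = W.mkQ (v j) := fun j => by simp [B]
  rw [← LinearMap.det_toMatrix B]
  congr 1
  ext i j
  rw [LinearMap.toMatrix_apply]
  have h1 : (W.mapQ W (f : U →ₗ[ℂ] U) h) (B j) = ∑ i, Λ i j • B i := by
    simp_rw [hB]
    rw [Submodule.mkQ_apply, Submodule.mapQ_apply]
    have h2 := hΛ j
    rw [← Submodule.Quotient.mk_eq_zero, ← Submodule.mkQ_apply, map_sub, sub_eq_zero, map_sum] at h2
    simp_rw [map_smul] at h2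
    exact h2
  rw [h1, map_sum, Finsupp.finsetSum_apply]
  simp [Finsupp.single_apply]

lemma detOn_mul (f g : U ≃ₗ[ℂ] U) (W : Submodule ℂ U) (hf : ∀ x ∈ W, f x ∈ W) (hg : ∀ x ∈ W, g x ∈ W) :
    detOn (f * g) W = detOn f W * detOn g W := by
  have hfg : ∀ x ∈ W, ((f * g : U ≃ₗ[ℂ] U) : U →ₗ[ℂ] U) x ∈ W := fun x hx => hf _ (hg x hx)
  rw [detOn_eq f W hf, detOn_eq g W hg, detOn_eq _ W hfg, ← LinearMap.det_comp]
  rfl

lemma detOn_one (W : Submodule ℂ U) : detOn (1 : U ≃ₗ[ℂ] U) W = 1 := by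
  have h : ∀ x ∈ W, ((1 : U ≃ₗ[ℂ] U) : U →ₗ[ℂ] U) x ∈ W := fun x hx => hx
  rw [detOn_eq _ W h]
  have : ((1 : U ≃ₗ[ℂ] U) : U →ₗ[ℂ] U).restrict h = LinearMap.id := by ext x; rfl
  rw [this, LinearMap.det_id]

lemma detQuot_mul (f g : U ≃ₗ[ℂ] U) (W : Submodule ℂ U) (hf : ∀ x ∈ W, f x ∈ W) (hg : ∀ x ∈ W, g x ∈ W) :
    detQuot (f * g) W = detQuot f W * detQuot g W := by
  have hfg : ∀ x ∈ W, ((f * g : U ≃ₗ[ℂ] U) : U →ₗ[ℂ] U) x ∈ W := fun x hx => hf _ (hg x hx)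
  rw [detQuot_eq f W hf, detQuot_eq g W hg, detQuot_eq _ W hfg, ← LinearMap.det_comp]
  congr 1
  apply Submodule.linearMap_qext
  ext x
  simp

lemma detQuot_one (W : Submodule ℂ U) : detQuot (1 : U ≃ₗ[ℂ] U) W = 1 := by
  have h : W ≤ W.comap ((1 : U ≃ₗ[ℂ] U) : U →ₗ[ℂ] U) := fun x hx => hx
  rw [detQuot_eq _ W h]
  have : W.mapQ W ((1 : U ≃ₗ[ℂ] U) : U →ₗ[ℂ] U) h = LinearMap.id := by
    apply Submodule.linearMap_qext
    ext x
    simp
  rw [this, LinearMap.det_id]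

lemma det_one_add_nilp [FiniteDimensional ℂ U] {N : Module.End ℂ U} (hN : IsNilpotent N) :
    LinearMap.det (1 + N) = 1 := by
  have h1 : IsNilpotent (-N) := hN.neg
  have h2 := LinearMap.eval_charpoly (-N) (1 : ℂ)
  rw [h1.charpoly_eq_X_pow_finrank] at h2
  simp only [Polynomial.eval_pow, Polynomial.eval_X, one_pow, map_one, sub_neg_eq_add] at h2
  exact h2.symm

end lin

variable {U : Type} [AddCommGroup U] [Module ℂ U] [Module ℚ U] [FiniteDimensional ℂ U]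

/-- the filtration is zero from some point on, and everything before some point -/
lemma fil_bounds (M : Mot U) : ∃ a b : ℤ, (∀ i, i ≤ a → M.fil i = ⊤) ∧ ∀ i, b ≤ i → M.fil i = ⊥ := by
  have hd : ∀ p, M.H p ≠ ⊥ → p ∈ degs M := fun p hp => (finite_degrees M).mem_toFinset.2 hp
  obtain ⟨b, hb⟩ : ∃ b : ℤ, ∀ p ∈ degs M, p < b := by
    obtain ⟨b, hb⟩ := (degs M).exists_le
    exact ⟨b + 1, fun p hp => by have := hb p hp; omega⟩
  obtain ⟨a, ha⟩ : ∃ a : ℤ, ∀ p ∈ degs M, a ≤ p := by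
    obtain ⟨a, ha⟩ := (degs M).bddBelow
    exact ⟨a, fun p hp => ha hp⟩
  refine ⟨a, b, ?_, ?_⟩
  · intro i hi
    rw [eq_top_iff, ← M.decomp.submodule_iSup_eq_top]
    refine iSup_le fun p => ?_
    by_cases hp : M.H p = ⊥
    · rw [hp]; exact bot_le
    · exact M.H_le_fil (hi.trans (ha p (hd p hp)))
  · intro i hi
    rw [eq_bot_iff]
    refine iSup₂_le fun p hp => ?_
    by_cases hp' : M.H p = ⊥
    · rw [hp']
    · have := hb p (hd p hp')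
      omega

/-- `f - 1` is nilpotent for unipotent `f` -/
lemma unip_nilp {M : Mot U} {f : U ≃ₗ[ℂ] U} (hf : IsUnip M f) :
    ∃ n : ℕ, ∀ x, ((f : U →ₗ[ℂ] U) - 1) ^ n = 0 ∨ x ∈ (⊤ : Submodule ℂ U) → (((f : U →ₗ[ℂ] U) - 1) ^ n) x = 0 := by
  obtain ⟨a, b, ha, hb⟩ := fil_bounds M
  refine ⟨(b - a).toNat, fun x _ => ?_⟩
  have h1 : ∀ n : ℕ, (((f : U →ₗ[ℂ] U) - 1) ^ n) x ∈ M.fil (a + n) := by
    intro n
    induction n with
    | zero => simp [ha a le_rfl]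
    | succ n ih =>
      rw [pow_succ', Module.End.mul_apply]
      have := hf _ _ ih
      have e : a + (n : ℤ) + 1 = a + ((n + 1 : ℕ) : ℤ) := by push_cast; ring
      rw [e] at this
      exact this
  have h2 := h1 (b - a).toNat
  rw [hb _ (by have := Int.self_le_toNat (b - a); omega)] at h2
  simpa using h2

lemma unip_nilp' {M : Mot U} {f : U ≃ₗ[ℂ] U} (hf : IsUnip M f) : ∃ n : ℕ, ((f : U →ₗ[ℂ] U) - 1) ^ n = 0 := by
  obtain ⟨n, hn⟩ := unip_nilp hf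
  exact ⟨n, LinearMap.ext fun x => hn x (Or.inr trivial)⟩

lemma unip_det {M : Mot U} {f : U ≃ₗ[ℂ] U} (hf : IsUnip M f) : LinearMap.det (f : U →ₗ[ℂ] U) = 1 := by
  obtain ⟨n, hn⟩ := unip_nilp' hf
  have : (f : U →ₗ[ℂ] U) = 1 + ((f : U →ₗ[ℂ] U) - 1) := by abel
  rw [this]
  exact det_one_add_nilp ⟨n, hn⟩

lemma unip_detOn {M : Mot U} {f : U ≃ₗ[ℂ] U} (hf : IsUnip M f) (i : ℤ) : detOn f (M.fil i) = 1 := by
  obtain ⟨n, hn⟩ := unip_nilp' hf
  have h : ∀ x ∈ M.fil i, (f : U →ₗ[ℂ] U) x ∈ M.fil i := fun x hx => unip_fil hf hx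
  rw [detOn_eq f _ h]
  have h1 : (f : U →ₗ[ℂ] U).restrict h = 1 + ((f : U →ₗ[ℂ] U).restrict h - 1) := by abel
  rw [h1]
  apply det_one_add_nilp
  refine ⟨n, LinearMap.ext fun x => ?_⟩
  have h2 : ∀ m : ℕ, (((((f : U →ₗ[ℂ] U).restrict h - 1) ^ m) x : M.fil i) : U) = (((f : U →ₗ[ℂ] U) - 1) ^ m) x := by
    intro m
    induction m with
    | zero => simp
    | succ m ih =>
      rw [pow_succ', pow_succ', Module.End.mul_apply, Module.End.mul_apply, ← ih]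
      rfl
  apply Subtype.ext
  rw [h2, hn]
  rfl

lemma unip_detQuot {M : Mot U} {f : U ≃ₗ[ℂ] U} (hf : IsUnip M f) (i : ℤ) : detQuot f (M.fil i) = 1 := by
  have h : M.fil i ≤ (M.fil i).comap (f : U →ₗ[ℂ] U) := fun x hx => unip_fil hf hx
  have h1 := LinearMap.det_eq_det_mul_det (M.fil i) (f : U →ₗ[ℂ] U) h
  rw [unip_det hf, ← detQuot_eq f _ h, ← detOn_eq f _ (fun x hx => unip_fil hf hx), unip_detOn hf, one_mul] at h1
  exact h1.symm

end Pool.Agent.H15.CR
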