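import Pool.Agent.H15.CR.Quad

/-! Motives of weight `3` with a quartic tensor. -/

set_option autoImplicit false

namespace Pool.Agent.H15.CR

open Module Pool.Agent.H15.SP

/-- The motive `M` has the Hodge types `(r + 3, r), …, (r, r + 3)` with `h^{r + 3, r} = 1` and `h^{r + 2, r + 1} = 3 m`, and
`t` is a tensor of degree `4` on `M` such that for `z ∈ H^{r, r + 3}` the Hessian determinant of the cubic form
`N(x) = t(z, x, x, x)` on `H^{r + 2, r + 1}` is a multiple `c N^m`, `c ≠ 0`, and `N ≠ 0`. -/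
structure IsCubic {U : Type} [AddCommGroup U] [Module ℂ U] [Module ℚ U] (M : Mot U) (r : ℤ) (m : ℕ)
    (t : MultilinearMap ℂ (fun _ : Fin 4 => U) ℂ) : Prop where
  tensor : IsTensor M t
  weight : M.w = 2 * r + 3
  types : ∀ p, M.H p ≠ ⊥ → r ≤ p ∧ p ≤ r + 3
  one : finrank ℂ (M.H (r + 3)) = 1
  hess : ∃ (z : U) (v : Fin (3 * m) → U) (c : ℂ), z ∈ M.H r ∧ c ≠ 0 ∧ (∀ i, v i ∈ M.H (r + 2)) ∧
    LinearIndependent ℂ v ∧ M.H (r + 2) ≤ Submodule.span ℂ (Set.range v) ∧ (∃ x ∈ M.H (r + 2), t ![z, x, x, x] ≠ 0) ∧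
    ∀ x ∈ M.H (r + 2), (Matrix.of fun i j => t ![z, x, v i, v j]).det = c * t ![z, x, x, x] ^ m

section

variable {U : Type} [AddCommGroup U] [Module ℂ U] [Module ℚ U] {M : Mot U} {r : ℤ} {m : ℕ}
  {t : MultilinearMap ℂ (fun _ : Fin 4 => U) ℂ}

omit [Module ℚ U] in
lemma t_smul0 (a : ℂ) (x y z w : U) : t ![a • x, y, z, w] = a * t ![x, y, z, w] := by
  have h := t.map_update_smul ![x, y, z, w] 0 a x
  have e1 : Function.update ![x, y, z, w] 0 (a • x) = ![a • x, y, z, w] := by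
    funext i; fin_cases i <;> simp [Function.update]
  have e2 : Function.update ![x, y, z, w] 0 x = ![x, y, z, w] := by
    funext i; fin_cases i <;> simp [Function.update]
  rw [e1, e2, smul_eq_mul] at h
  exact h

omit [Module ℚ U] in
lemma t_sum2 {n : ℕ} (x y w : U) (a : Fin n → ℂ) (v : Fin n → U) :
    t ![x, y, ∑ i, a i • v i, w] = ∑ i, a i * t ![x, y, v i, w] := by
  have e2 : ∀ z, Function.update ![x, y, 0, w] 2 z = ![x, y, z, w] := by
    intro z; funext i; fin_cases i <;> simp [Function.update]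
  have h := t.map_update_sum Finset.univ 2 (fun i => a i • v i) ![x, y, 0, w]
  rw [e2] at h
  rw [h]
  refine Finset.sum_congr rfl fun i _ => ?_
  rw [t.map_update_smul, e2, smul_eq_mul]

omit [Module ℚ U] in
lemma t_sum3 {n : ℕ} (x y w : U) (a : Fin n → ℂ) (v : Fin n → U) :
    t ![x, y, w, ∑ i, a i • v i] = ∑ i, a i * t ![x, y, w, v i] := by
  have e2 : ∀ z, Function.update ![x, y, w, 0] 3 z = ![x, y, w, z] := by
    intro z; funext i; fin_cases i <;> simp [Function.update]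
  have h := t.map_update_sum Finset.univ 3 (fun i => a i • v i) ![x, y, w, 0]
  rw [e2] at h
  rw [h]
  refine Finset.sum_congr rfl fun i _ => ?_
  rw [t.map_update_smul, e2, smul_eq_mul]

omit [AddCommGroup U] [Module ℂ U] [Module ℚ U] in
lemma comp_vec (f : U → U) (x y z w : U) : (fun i => f (![x, y, z, w] i)) = ![f x, f y, f z, f w] := by
  funext i; fin_cases i <;> rfl

lemma cubic_char (h : IsCubic M r m t) (l : U ≃ₗ[ℂ] U) (hl : IsLevi M l) (hl' : ∀ x, M.F (l (M.F (l x))) = x)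
    {ν : ℂ} (hν : ∀ x, t (fun i => l (x i)) = ν * t x) :
    detOn l (M.H (r + 2)) ^ 2 = detOn l (M.H (r + 3)) ^ (2 * m) := by
  obtain ⟨z, v, c, hz, hc, hv, hind, hspan, ⟨x0, hx0, hN0⟩, hhess⟩ := h.hess
  have hz0 : z ≠ 0 := by
    rintro rfl
    apply hN0
    have := t_smul0 (t := t) 0 0 x0 x0 x0
    simpa using this
  -- the line `H^{r+3}` is spanned by `F z`
  have hFz : M.F z ∈ M.H (r + 3) := by
    have := M.swap r z hz
    rwa [h.weight, show 2 * r + 3 - r = r + 3 by ring] at this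
  have hFz0 : M.F z ≠ 0 := by
    intro h0
    apply hz0
    rw [← M.F_sq z, h0, map_zero]
  have hline : ∀ y ∈ M.H (r + 3), ∃ b : ℂ, y = b • M.F z := by
    intro y hy
    obtain ⟨b, hb⟩ := (finrank_eq_one_iff_of_nonzero' (⟨M.F z, hFz⟩ : M.H (r + 3))
      (by intro h0; exact hFz0 (congrArg Subtype.val h0))).1 h.one ⟨y, hy⟩
    exact ⟨b, (congrArg Subtype.val hb).symm⟩
  obtain ⟨b, hb⟩ := hline _ (hl _ _ hFz)
  have hdb : detOn l (M.H (r + 3)) = b := by
    have := detOn_basis l (M.H (r + 3)) (fun _ : Fin 1 => M.F z) (fun _ => hFz)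
      (LinearIndependent.of_subsingleton 0 hFz0) (fun y hy => by
        obtain ⟨a, ha⟩ := hline y hy
        exact ⟨fun _ => a, by simpa using ha⟩) (Matrix.of fun _ _ => b) (fun _ => by simpa using hb)
    rw [this]
    simp
  -- `l z = b⁻¹ z`
  have hlz : l z = b⁻¹ • z := by
    have h1 := hl' (M.F z)
    rw [hb, map_smul, M.F_sq, map_smul, map_smul] at h1
    have h2 : b • l z = z := by
      have := congrArg M.F h1
      rw [map_smul, M.F_sq, M.F_sq] at this
      exact this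
    have hb0 : b ≠ 0 := by
      rintro rfl
      rw [zero_smul] at h2
      exact hz0 h2.symm
    have h4 : b⁻¹ • (b • l z) = b⁻¹ • z := by rw [h2]
    rwa [smul_smul, inv_mul_cancel₀ hb0, one_smul] at h4
  have hb0 : b ≠ 0 := by
    rintro rfl
    rw [inv_zero, zero_smul] at hlz
    exact hz0 (l.map_eq_zero_iff.1 hlz)
  -- `ν² = 1`
  have hν2 : ν ^ 2 = 1 := by
    obtain ⟨ε, hε, hF⟩ := h.tensor.frob
    set X : Fin 4 → U := ![z, x0, x0, x0] with hX
    have h1 : t X = ε * ν * (ε * ν) * t X := by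
      have h2 : (fun i => M.F (l (M.F (l (X i))))) = X := by funext i; exact hl' (X i)
      have h3 := hF (fun i => l (M.F (l (X i))))
      rw [h2, hν, hF (fun i => l (X i)), hν] at h3
      linear_combination h3
    have h2 : t X = ε * ε * t X := by
      have h3 := hF (fun i => M.F (X i))
      rw [hF X] at h3
      have h4 : (fun i => M.F (M.F (X i))) = X := by funext i; exact M.F_sq (X i)
      rw [h4] at h3
      linear_combination h3
    have h3 : ε * ε = 1 := by
      have : (1 - ε * ε) * t X = 0 := by rw [sub_mul, ← h2]; ring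
      have := (mul_eq_zero.1 this).resolve_right hN0
      exact (sub_eq_zero.1 this).symm
    have h4 : (1 - ν ^ 2) * t X = 0 := by
      have : ε * ν * (ε * ν) = (ε * ε) * ν ^ 2 := by ring
      rw [this, h3, one_mul] at h1
      rw [sub_mul, ← h1]; ring
    have := (mul_eq_zero.1 h4).resolve_right hN0
    exact (sub_eq_zero.1 this).symm
  -- the action on the forms
  have hform : ∀ x y w, t ![z, l x, l y, l w] = ν * b * t ![z, x, y, w] := by
    intro x y w
    have h1 := hν ![z, x, y, w]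
    rw [comp_vec, hlz, t_smul0] at h1
    rw [mul_comm ν b, mul_assoc, ← h1, ← mul_assoc, mul_inv_cancel₀ hb0, one_mul]
  have hspan' : ∀ y ∈ M.H (r + 2), ∃ a : Fin (3 * m) → ℂ, y = ∑ k, a k • v k := by
    intro y hy
    obtain ⟨a, ha⟩ := (Submodule.mem_span_range_iff_exists_fun ℂ).1 (hspan hy)
    exact ⟨a, ha.symm⟩
  choose Λ hΛ using fun j => hspan' _ (hl _ _ (hv j))
  have hdΛ : detOn l (M.H (r + 2)) = (Matrix.of fun i j => Λ j i).det :=
    detOn_basis l _ v hv hind hspan' _ (fun j => hΛ j)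
  set L : Matrix (Fin (3 * m)) (Fin (3 * m)) ℂ := Matrix.of fun i j => Λ j i with hL
  set B : U → Matrix (Fin (3 * m)) (Fin (3 * m)) ℂ := fun x => Matrix.of fun i j => t ![z, x, v i, v j] with hB
  have hBL : L.transpose * B (l x0) * L = (ν * b) • B x0 := by
    ext i j
    rw [Matrix.smul_apply, smul_eq_mul]
    simp only [hB, Matrix.of_apply]
    rw [← hform, hΛ i, t_sum2]
    simp_rw [hΛ j, t_sum3]
    rw [Matrix.mul_apply]
    simp_rw [Matrix.mul_apply, Finset.sum_mul, Finset.mul_sum]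
    rw [Finset.sum_comm]
    refine Finset.sum_congr rfl fun k _ => Finset.sum_congr rfl fun q _ => ?_
    simp only [hL, Matrix.transpose_apply, Matrix.of_apply]
    ring
  have hdet := congrArg Matrix.det hBL
  rw [Matrix.det_mul, Matrix.det_mul, Matrix.det_transpose, Matrix.det_smul, Fintype.card_fin] at hdet
  have h1 : (B (l x0)).det = c * t ![z, l x0, l x0, l x0] ^ m := hhess _ (hl _ _ hx0)
  have h2 : (B x0).det = c * t ![z, x0, x0, x0] ^ m := hhess _ hx0
  rw [h1, h2, hform] at hdet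
  have hν0 : ν ≠ 0 := by
    rintro rfl
    norm_num at hν2
  have hne : c * (ν * b * t ![z, x0, x0, x0]) ^ m ≠ 0 :=
    mul_ne_zero hc (pow_ne_zero _ (mul_ne_zero (mul_ne_zero hν0 hb0) hN0))
  have h3 : L.det ^ 2 * (c * (ν * b * t ![z, x0, x0, x0]) ^ m) =
      (b ^ (2 * m)) * (c * (ν * b * t ![z, x0, x0, x0]) ^ m) := by
    calc L.det ^ 2 * (c * (ν * b * t ![z, x0, x0, x0]) ^ m)
        = L.det * (c * (ν * b * t ![z, x0, x0, x0]) ^ m) * L.det := by ring
      _ = (ν * b) ^ (3 * m) * (c * t ![z, x0, x0, x0] ^ m) := hdet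
      _ = (ν ^ 2) ^ m * b ^ (2 * m) * (c * (ν * b * t ![z, x0, x0, x0]) ^ m) := by
          rw [mul_pow (ν * b) (t ![z, x0, x0, x0]) m, mul_pow, mul_pow ν b m]; ring
      _ = (b ^ (2 * m)) * (c * (ν * b * t ![z, x0, x0, x0]) ^ m) := by rw [hν2, one_pow, one_mul]
  rw [hdΛ, hdb]
  exact mul_right_cancel₀ hne h3

end

theorem cubic_hodge {U : Type} [AddCommGroup U] [Module ℂ U] [Module ℚ U] {M : Mot U} {r : ℤ} {m : ℕ}
    {t : MultilinearMap ℂ (fun _ : Fin 4 => U) ℂ} (h : IsCubic M r m t) {d2 d3 : ℂ} (hd2 : IsHodgePeriod M (r + 2) d2)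
    (hd3 : IsHodgePeriod M (r + 3) d3) : ∃ q : ℚ, q ≠ 0 ∧ d2 ^ 2 = q * d3 ^ (2 * m) := by
  have hd30 := hodge_ne_zero M hd3
  obtain ⟨q, hq0, hq⟩ := quad_relation M (J := Unit) (k := fun _ => 4) (t := fun _ => t) (fun _ => h.tensor)
    (I := Fin 2) (V := fun _ => U) (fun _ => M) (fun _ => (strGroup _).subtype) (fun _ => Data.self M _)
    ![2, -(2 * m : ℕ)] ![M.H (r + 2), M.H (r + 3)] ![d2, d3]
    (by
      intro i
      fin_cases i
      · exact Or.inl ⟨_, rfl, hd2⟩
      · exact Or.inl ⟨_, rfl, hd3⟩)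
    (by
      intro l hl hl'
      obtain ⟨ν, hν, hνt⟩ := l.2 ()
      have h1 := cubic_char h (l : U ≃ₗ[ℂ] U) hl hl' hνt
      rw [Fin.prod_univ_two]
      simp only [Matrix.cons_val_zero, Matrix.cons_val_one, Subgroup.coe_subtype]
      have h2 : detOn (l : U ≃ₗ[ℂ] U) (M.H (r + 3)) ≠ 0 := by
        intro h0
        have : FiniteDimensional ℂ U := finDim M
        have h1 : detOn (l : U ≃ₗ[ℂ] U) (M.H (r + 3)) * detOn (l : U ≃ₗ[ℂ] U)⁻¹ (M.H (r + 3)) = 1 := by
          rw [← detOn_mul (l : U ≃ₗ[ℂ] U) (l : U ≃ₗ[ℂ] U)⁻¹ _ (hl _) (levi_symm hl _), mul_inv_cancel, detOn_one]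
        rw [h0, zero_mul] at h1
        exact zero_ne_one h1
      rw [zpow_neg, zpow_natCast, ← h1]
      have h3 : detOn (l : U ≃ₗ[ℂ] U) (M.H (r + 2)) ^ (2 : ℤ) = detOn (l : U ≃ₗ[ℂ] U) (M.H (r + 2)) ^ 2 := by
        norm_cast
      rw [h3]
      apply mul_inv_cancel₀
      rw [h1]
      exact pow_ne_zero _ h2)
  refine ⟨q, hq0, ?_⟩
  rw [Fin.prod_univ_two] at hq
  simp only [Matrix.cons_val_zero, Matrix.cons_val_one] at hq
  rw [zpow_neg, zpow_natCast] at hq
  have h3 : d2 ^ (2 : ℤ) = d2 ^ 2 := by norm_cast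
  rw [h3] at hq
  rw [← hq]
  field_simp

theorem cubic_deligne {U : Type} [AddCommGroup U] [Module ℂ U] [Module ℚ U] {M : Mot U} {r : ℤ} {m : ℕ}
    {t : MultilinearMap ℂ (fun _ : Fin 4 => U) ℂ} (h : IsCubic M r m t) {d2 d3 cp cm δ : ℂ}
    (hd2 : IsHodgePeriod M (r + 2) d2)
    (hd3 : IsHodgePeriod M (r + 3) d3) (hcp : M.IsPeriod 1 cp) (hcm : M.IsPeriod (-1) cm) (hδ : IsPeriodDet M δ) :
    ∃ q : ℚ, q ≠ 0 ∧ (cp * cm) ^ 2 = q * (δ ^ 2 * d3 ^ (2 * m + 2)) := by
  obtain ⟨q, hq0, hq⟩ := cubic_hodge h hd2 hd3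
  have hnm : NoMiddle M := by
    intro p hp
    exfalso
    rw [h.weight] at hp
    omega
  obtain ⟨q', hq0', hq'⟩ := product_formula M hnm {r + 2, r + 3}
    (by
      intro p hp
      rw [Finset.mem_insert, Finset.mem_singleton] at hp
      rw [h.weight]
      omega)
    (by
      intro p hp hpS
      by_contra h0
      have h1 := h.types p h0
      rw [Finset.mem_insert, Finset.mem_singleton] at hpS
      rw [h.weight] at hp
      omega) (d := fun p => if p = r + 2 then d2 else d3) hcp hcm hδ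
    (by
      intro p hp
      rw [Finset.mem_insert, Finset.mem_singleton] at hp
      rcases hp with rfl | rfl
      · simpa using hd2
      · have : ¬ (r + 3 = r + 2) := by omega
        simpa [this] using hd3)
  refine ⟨q' ^ 2 * q, mul_ne_zero (pow_ne_zero _ hq0') hq0, ?_⟩
  have hne : (r + 2 : ℤ) ∉ ({r + 3} : Finset ℤ) := by
    rw [Finset.mem_singleton]; omega
  rw [Finset.prod_insert hne, Finset.prod_singleton] at hq'
  have : ¬ (r + 3 = r + 2) := by omega
  simp only [if_true, this, if_false] at hq'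
  rw [hq', mul_pow, mul_pow, mul_pow, hq]
  push_cast
  ring

end Pool.Agent.H15.CR
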