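import Pool.Agent.H15.CR.Trans
import Pool.Agent.H15.CR.Aut

/-! Relations between Hodge periods. -/

set_option autoImplicit false

namespace Pool.Agent.H15.CR

open Module Pool.Agent.H15.SP

lemma finDim {U : Type} [AddCommGroup U] [Module ℂ U] [Module ℚ U] (M : Mot U) : FiniteDimensional ℂ U := by
  obtain ⟨n, v, -⟩ := M.B_rat
  exact Module.Finite.of_basis v

lemma scalar {U : Type} [AddCommGroup U] [Module ℂ U] [Module ℚ U] : IsScalarTower ℚ ℂ U :=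
  ⟨fun q a x => by
    rw [← Rat.cast_smul_eq_qsmul ℂ q (a • x), smul_smul]
    congr 1⟩

/-- the data attached to an automorphism of `ℂ` -/
structure Data {U : Type} [AddCommGroup U] [Module ℂ U] [Module ℚ U] [FiniteDimensional ℂ U] (M : Mot U)
    (G : Subgroup (U ≃ₗ[ℂ] U)) (σ : ℂ ≃+* ℂ) where
  sB : U ≃+ U
  sD : U ≃+ U
  hB : IsConj σ M.B sB
  hD : IsConj σ M.D sD
  F : G
  g : G
  u : G
  hF : (F : U ≃ₗ[ℂ] U) = Feq M
  hg : (g : U ≃ₗ[ℂ] U) = lin sB sD hB.semi hD.semi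
  hu : (u : U ≃ₗ[ℂ] U) = uEq M hD

lemma exists_data {U : Type} [AddCommGroup U] [Module ℂ U] [Module ℚ U] [FiniteDimensional ℂ U] (M : Mot U)
    {J : Type} {k : J → ℕ} {t : ∀ j, MultilinearMap ℂ (fun _ : Fin (k j) => U) ℂ} (ht : ∀ j, IsTensor M (t j))
    (σ : ℂ ≃+* ℂ) : Nonempty (Data M (strGroup t) σ) := by
  obtain ⟨sB, hB⟩ := IsRat.conj M.B_rat σ
  obtain ⟨sD, hD⟩ := IsRat.conj M.D_rat σ
  exact ⟨⟨sB, sD, hB, hD, ⟨Feq M, Feq_mem ht⟩, ⟨_, lin_mem ht hB hD⟩, ⟨_, uEq_mem ht hD⟩, rfl, rfl, rfl⟩⟩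

namespace Data

variable {U : Type} [AddCommGroup U] [Module ℂ U] [Module ℚ U] [FiniteDimensional ℂ U] {M : Mot U}
  {G : Subgroup (U ≃ₗ[ℂ] U)} {σ : ℂ ≃+* ℂ} (D : Data M G σ)

/-- the element `F_∞ u g⁻¹ F_∞ g u⁻¹` -/
def l : G := D.F * (D.u * D.g⁻¹ * D.F * D.g * D.u⁻¹)

variable {V : Type} [AddCommGroup V] [Module ℂ V] [Module ℚ V] [FiniteDimensional ℂ V] {T : Mot V}
  {ρ : G →* (V ≃ₗ[ℂ] V)} (h : IsConstruction M G T ρ)

omit [FiniteDimensional ℂ U] in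
/-- `M` itself is a construction -/
lemma self (M : Mot U) (G : Subgroup (U ≃ₗ[ℂ] U)) : IsConstruction M G M G.subtype where
  frob g hg y := hg y
  gal σ g sB sD sB' sD' hB hD hB' hD' hg y := by
    have h1 : ∀ (L : Submodule ℚ U), IsRat L → ∀ s s' : U ≃+ U, IsConj σ L s → IsConj σ L s' → ∀ x, s x = s' x := by
      intro L hL s s' hs hs' x
      have hx : x ∈ Submodule.span ℂ (L : Set U) := by rw [hL.span_eq_top]; trivial
      induction hx using Submodule.span_induction with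
      | mem x hx => rw [hs.2 x hx, hs'.2 x hx]
      | zero => rw [map_zero, map_zero]
      | add x y _ _ h1 h2 => rw [map_add, map_add, h1, h2]
      | smul a x _ h1 => rw [hs.1, hs'.1, h1]
    rw [h1 M.D M.D_rat sD' sD hD' hD, h1 M.B M.B_rat sB' sB hB' hB]
    exact hg y
  levi g hg := hg
  unip g hg := hg

lemma l_isLevi : IsLevi M (D.l : U ≃ₗ[ℂ] U) :=
  l_levi (self M G) D.hB D.hD D.hB D.hD D.hF D.hg D.hu

lemma l_anti (x : U) : M.F ((D.l : U ≃ₗ[ℂ] U) (M.F ((D.l : U ≃ₗ[ℂ] U) x))) = x := by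
  have h1 : ∀ y, (D.l : U ≃ₗ[ℂ] U) y = M.F (Fconj M D.hD y) := fun y =>
    rho_l (self M G) D.hB D.hD D.hB D.hD D.hF D.hg D.hu y
  rw [h1 x, M.F_sq, h1, M.F_sq, Fconj_sq]

include h

/-- the Galois action on the Hodge periods -/
lemma hodge {p : ℤ} {d : ℂ} (hd : IsHodgePeriod T p d) : σ d = d * detOn (ρ D.l) (T.H p) := by
  have : IsScalarTower ℚ ℂ V := scalar
  obtain ⟨sB', hB'⟩ := IsRat.conj T.B_rat σ
  obtain ⟨sD', hD'⟩ := IsRat.conj T.D_rat σ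
  exact hodge_trans T hD' hd _ (rho_l h D.hB D.hD hB' hD' D.hF D.hg D.hu)

end Data

lemma hodge_ne_zero {V : Type} [AddCommGroup V] [Module ℂ V] [Module ℚ V] (T : Mot V) {p : ℤ} {d : ℂ}
    (hd : IsHodgePeriod T p d) : d ≠ 0 := by
  have : FiniteDimensional ℂ V := finDim T
  have : IsScalarTower ℚ ℂ V := scalar
  obtain ⟨n, x, y, A, hx, hy, hA, rfl⟩ := hd
  intro h0
  obtain ⟨a, ha, hA0⟩ := Matrix.exists_mulVec_eq_zero_iff.2 h0
  apply ha
  have h1 : T.F (∑ j, a j • x j) = 0 := by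
    rw [map_sum]
    simp_rw [map_smul, hA, Finset.smul_sum, smul_smul]
    rw [Finset.sum_comm]
    refine Finset.sum_eq_zero fun k _ => ?_
    rw [← Finset.sum_smul]
    have h2 := congrFun hA0 k
    rw [Matrix.mulVec, dotProduct, Pi.zero_apply] at h2
    have h3 : ∑ j, a j * A k j = 0 := by rw [← h2]; exact Finset.sum_congr rfl fun j _ => mul_comm _ _
    rw [h3, zero_smul]
  have h2 : ∑ j, a j • x j = 0 := by
    rw [← T.F_sq (∑ j, a j • x j), h1, map_zero]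
  have h3 := Fintype.linearIndependent_iff.1 (lat_indep T p hx) a h2
  exact funext h3

/-- **Relations between the Hodge periods of the constructions.** -/
theorem hodge_relation {U : Type} [AddCommGroup U] [Module ℂ U] [Module ℚ U] (M : Mot U)
    {J : Type} {k : J → ℕ} {t : ∀ j, MultilinearMap ℂ (fun _ : Fin (k j) => U) ℂ} (ht : ∀ j, IsTensor M (t j))
    {I : Type} [Fintype I] {V : I → Type} [∀ i, AddCommGroup (V i)] [∀ i, Module ℂ (V i)] [∀ i, Module ℚ (V i)]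
    (T : ∀ i, Mot (V i)) (ρ : ∀ i, strGroup t →* (V i ≃ₗ[ℂ] V i))
    (hρ : ∀ i, IsConstruction M (strGroup t) (T i) (ρ i)) (a p : I → ℤ) (d : I → ℂ)
    (hd : ∀ i, IsHodgePeriod (T i) (p i) (d i))
    (hchar : ∀ l : strGroup t, IsLevi M l → (∀ x, M.F ((l : U ≃ₗ[ℂ] U) (M.F ((l : U ≃ₗ[ℂ] U) x))) = x) →
      ∏ i, detOn (ρ i l) ((T i).H (p i)) ^ a i = 1) :
    ∃ q : ℚ, q ≠ 0 ∧ ∏ i, d i ^ a i = q := by
  have : FiniteDimensional ℂ U := finDim M
  have hV : ∀ i, FiniteDimensional ℂ (V i) := fun i => finDim (T i)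
  obtain ⟨q, hq⟩ := rational_of_fixed (x := ∏ i, d i ^ a i) (fun σ => by
    obtain ⟨D⟩ := exists_data M ht σ
    rw [map_prod]
    have h1 : ∀ i, σ (d i ^ a i) = d i ^ a i * detOn (ρ i D.l) ((T i).H (p i)) ^ a i := by
      intro i
      rw [map_zpow₀, D.hodge (hρ i) (hd i), mul_zpow]
    simp_rw [h1]
    rw [Finset.prod_mul_distrib, hchar D.l D.l_isLevi D.l_anti, mul_one])
  refine ⟨q, ?_, hq⟩
  rintro rfl
  rw [Rat.cast_zero, Finset.prod_eq_zero_iff] at hq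
  obtain ⟨i, -, hi⟩ := hq
  exact zpow_ne_zero _ (hodge_ne_zero (T i) (hd i)) hi

end Pool.Agent.H15.CR
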