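import Pool.Agent.H15.CR.Period

/-! `c⁺ c⁻ = q δ ∏ δ_p` for motives without middle classes. -/

set_option autoImplicit false

namespace Pool.Agent.H15.CR

open Module Pool.Agent.H15.SP

variable {V : Type} [AddCommGroup V] [Module ℂ V] [Module ℚ V]

/-- `T` has no classes of type `(p, p)` -/
def NoMiddle (T : Mot V) : Prop := ∀ p, 2 * p = T.w → T.H p = ⊥

/-- the first step of the Hodge filtration above the middle -/
def mid (T : Mot V) : ℤ := T.w / 2 + 1

lemma fil_mid_low {T : Mot V} (hT : NoMiddle T) {x : V} (hx : x ∈ T.low (mid T - 1)) : T.F x ∈ T.fil (mid T) := by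
  have h1 := T.F_low hx
  unfold mid at h1 ⊢
  rcases Int.even_or_odd' T.w with ⟨k, hk | hk⟩
  · have e1 : T.w / 2 = k := by omega
    rw [e1] at h1 ⊢
    rw [show T.w - (k + 1 - 1) = k by omega, T.fil_eq k, hT k (by omega), bot_sup_eq] at h1
    exact h1
  · have e1 : T.w / 2 = k := by omega
    rw [e1] at h1 ⊢
    rwa [show T.w - (k + 1 - 1) = k + 1 by omega] at h1

lemma low_mid_fil {T : Mot V} {x : V} (hx : x ∈ T.fil (mid T)) : T.F x ∈ T.low (mid T - 1) := by
  have h1 := T.F_fil hx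
  unfold mid at h1 ⊢
  have : T.low (T.w - (T.w / 2 + 1)) ≤ T.low (T.w / 2 + 1 - 1) :=
    iSup₂_le fun p hp => T.H_le_low (by omega)
  exact this h1

lemma finrank_ceig {T : Mot V} (hT : NoMiddle T) (s : ℤˣ) :
    finrank ℂ (T.ceig ((s : ℤ) : ℂ)) = finrank ℂ (T.fil (mid T)) := by
  have hs : ((s : ℤ) : ℂ) * ((s : ℤ) : ℂ) = 1 := by
    rcases Int.units_eq_one_or s with rfl | rfl <;> simp
  let g : T.fil (mid T) →ₗ[ℂ] T.ceig ((s : ℤ) : ℂ) :=
    LinearMap.codRestrict (T.ceig ((s : ℤ) : ℂ)) ((LinearMap.id + ((s : ℤ) : ℂ) • T.F).comp (T.fil (mid T)).subtype) (by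
      intro x
      rw [Mot.mem_ceig]
      simp only [LinearMap.comp_apply, Submodule.subtype_apply, LinearMap.add_apply, LinearMap.id_apply,
        LinearMap.smul_apply, map_add, map_smul, T.F_sq, smul_add, smul_smul, hs, one_smul]
      exact add_comm _ _)
  have hg : ∀ x, ((g x : T.ceig ((s : ℤ) : ℂ)) : V) = (x : V) + ((s : ℤ) : ℂ) • T.F x := fun x => by simp [g]
  have hinj : Function.Injective g := by
    rw [← LinearMap.ker_eq_bot, LinearMap.ker_eq_bot']
    intro x hx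
    have h1 := hg x
    rw [hx] at h1
    have h2 : (x : V) = -(((s : ℤ) : ℂ) • T.F x) := eq_neg_of_add_eq_zero_left h1.symm
    apply Subtype.ext
    refine Submodule.disjoint_def.1 (T.disj (show mid T - 1 < mid T by omega)) _ x.2 ?_
    rw [h2]
    exact Submodule.neg_mem _ (Submodule.smul_mem _ _ (low_mid_fil x.2))
  have hsurj : Function.Surjective g := by
    rintro ⟨x, hx⟩
    rw [Mot.mem_ceig] at hx
    have h1 : x ∈ T.fil (mid T) ⊔ T.low (mid T - 1) := by rw [T.fil_sup_low]; trivial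
    obtain ⟨y, hy, z, hz, rfl⟩ := Submodule.mem_sup.1 h1
    refine ⟨⟨y, hy⟩, Subtype.ext ?_⟩
    rw [hg]
    -- `F y = s z`
    have h2 : T.F y - ((s : ℤ) : ℂ) • z = ((s : ℤ) : ℂ) • y - T.F z := by
      rw [map_add, smul_add] at hx
      rw [sub_eq_sub_iff_add_eq_add, hx, add_comm]
    have h3 : T.F y - ((s : ℤ) : ℂ) • z = 0 := by
      refine Submodule.disjoint_def.1 (T.disj (show mid T - 1 < mid T by omega)) _ ?_ ?_
      · rw [h2]
        exact Submodule.sub_mem _ (Submodule.smul_mem _ _ hy) (fil_mid_low hT hz)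
      · exact Submodule.sub_mem _ (low_mid_fil hy) (Submodule.smul_mem _ _ hz)
    have h4 : T.F y = ((s : ℤ) : ℂ) • z := sub_eq_zero.1 h3
    change y + ((s : ℤ) : ℂ) • T.F y = y + z
    rw [h4, smul_smul, hs, one_smul]
  exact (LinearEquiv.ofBijective g ⟨hinj, hsurj⟩).finrank_eq.symm

lemma fil_of_finrank {T : Mot V} (hT : NoMiddle T) {s : ℤˣ} {i : ℤ} (hi : finrank ℂ (T.fil i) = T.dim (-s)) :
    T.fil i = T.fil (mid T) := by
  have : FiniteDimensional ℂ V := finDim T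
  have : IsScalarTower ℚ ℂ V := scalar
  have h1 : finrank ℂ (T.fil i) = finrank ℂ (T.fil (mid T)) := by
    rw [hi, dim_eq, finrank_ceig hT]
  rcases le_total i (mid T) with h | h
  · exact (Submodule.eq_of_le_of_finrank_eq (T.fil_anti h) h1.symm).symm
  · exact Submodule.eq_of_le_of_finrank_eq (T.fil_anti h) h1

/-- the projection to the step `F^i` along the lower part -/
noncomputable def proj [FiniteDimensional ℂ V] (T : Mot V) (i : ℤ) : V →ₗ[ℂ] V :=
  ∑ p ∈ (degs T).filter (fun p => i ≤ p), comp T p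

section

variable [FiniteDimensional ℂ V] {T : Mot V}

lemma proj_fil (i : ℤ) {x : V} (hx : x ∈ T.fil i) : proj T i x = x := by
  rw [proj, LinearMap.sum_apply]
  refine sum_comp x _ fun p hp => ?_
  rw [Finset.mem_filter, not_and_or] at hp
  rcases hp with hp | hp
  · exact comp_not_degs hp x
  · exact comp_fil (by omega) hx

lemma proj_low (i : ℤ) {x : V} (hx : x ∈ T.low (i - 1)) : proj T i x = 0 := by
  rw [proj, LinearMap.sum_apply]
  refine Finset.sum_eq_zero fun p hp => ?_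
  rw [Finset.mem_filter] at hp
  exact comp_low (by omega) hx

omit [FiniteDimensional ℂ V] in
lemma levi_low {g : V ≃ₗ[ℂ] V} (hg : IsLevi T g) {i : ℤ} {x : V} (hx : x ∈ T.low i) : g x ∈ T.low i := by
  have : T.low i ≤ (T.low i).comap (g : V →ₗ[ℂ] V) := by
    refine iSup₂_le fun p hp => ?_
    intro y hy
    exact T.H_le_low hp (hg p y hy)
  exact this hx

lemma levi_symm {g : V ≃ₗ[ℂ] V} (hg : IsLevi T g) : IsLevi T g.symm := by
  intro p x hx
  have hle : (T.H p).map (g : V →ₗ[ℂ] V) ≤ T.H p := by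
    rintro _ ⟨y, hy, rfl⟩
    exact hg p y hy
  have heq : (T.H p).map (g : V →ₗ[ℂ] V) = T.H p := by
    apply Submodule.eq_of_le_of_finrank_eq hle
    exact LinearEquiv.finrank_map_eq g _
  rw [← heq] at hx
  obtain ⟨y, hy, rfl⟩ := hx
  have : g.symm ((g : V →ₗ[ℂ] V) y) = y := g.symm_apply_apply y
  rwa [this]

/-- `l` on the upper half, the identity on the lower half -/
noncomputable def half (T : Mot V) (i : ℤ) (l : V ≃ₗ[ℂ] V) (hl : IsLevi T l) : V ≃ₗ[ℂ] V where
  toFun x := l (proj T i x) + (x - proj T i x)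
  map_add' x y := by simp only [map_add]; abel
  map_smul' a x := by
    simp only [map_smul, RingHom.id_apply, smul_add, smul_sub]
  invFun x := l.symm (proj T i x) + (x - proj T i x)
  left_inv x := by
    have h1 : x ∈ T.fil i ⊔ T.low (i - 1) := by rw [T.fil_sup_low]; trivial
    obtain ⟨y, hy, z, hz, rfl⟩ := Submodule.mem_sup.1 h1
    have h2 := levi_fil hl hy
    simp only [map_add, proj_fil i hy, proj_low i hz, map_zero, proj_fil i h2, sub_self, map_sub]
    simp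
  right_inv x := by
    have h1 : x ∈ T.fil i ⊔ T.low (i - 1) := by rw [T.fil_sup_low]; trivial
    obtain ⟨y, hy, z, hz, rfl⟩ := Submodule.mem_sup.1 h1
    have h2 := levi_fil (levi_symm hl) hy
    simp only [map_add, proj_fil i hy, proj_low i hz, map_zero, proj_fil i h2, sub_self, map_sub]
    simp

lemma half_apply (i : ℤ) (l : V ≃ₗ[ℂ] V) (hl : IsLevi T l) (x : V) :
    half T i l hl x = l (proj T i x) + (x - proj T i x) := rfl

lemma half_fil (i : ℤ) (l : V ≃ₗ[ℂ] V) (hl : IsLevi T l) {x : V} (hx : x ∈ T.fil i) : half T i l hl x = l x := by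
  rw [half_apply, proj_fil i hx, sub_self, add_zero]

lemma half_low (i : ℤ) (l : V ≃ₗ[ℂ] V) (hl : IsLevi T l) {x : V} (hx : x ∈ T.low (i - 1)) :
    half T i l hl x = x := by
  rw [half_apply, proj_low i hx, map_zero, zero_add, sub_zero]

lemma half_comm (hT : NoMiddle T) (l : V ≃ₗ[ℂ] V) (hl : IsLevi T l) (hl' : ∀ x, T.F (l (T.F (l x))) = x) (x : V) :
    half T (mid T) l hl (T.F (l x)) = T.F (half T (mid T) l hl x) := by
  have h1 : x ∈ T.fil (mid T) ⊔ T.low (mid T - 1) := by rw [T.fil_sup_low]; trivial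
  obtain ⟨y, hy, z, hz, rfl⟩ := Submodule.mem_sup.1 h1
  simp only [map_add]
  congr 1
  · rw [half_low _ _ _ (low_mid_fil (levi_fil hl hy)), half_fil _ _ _ hy]
  · rw [half_fil _ _ _ (fil_mid_low hT (levi_low hl hz)), half_low _ _ _ hz]
    rw [← T.F_sq (l (T.F (l z))), hl']

lemma half_levi (i : ℤ) (l : V ≃ₗ[ℂ] V) (hl : IsLevi T l) : IsLevi T (half T i l hl) := by
  intro p x hx
  rcases le_or_gt i p with h | h
  · rw [half_fil _ _ _ (T.H_le_fil h hx)]
    exact hl p x hx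
  · rw [half_low _ _ _ (T.H_le_low (by omega) hx)]
    exact hx

end

section

variable {W : Type} [AddCommGroup W] [Module ℂ W]

lemma detOn_congr (f g : W ≃ₗ[ℂ] W) (P : Submodule ℂ W) (hg : ∀ x ∈ P, g x ∈ P) (h : ∀ x ∈ P, f x = g x) :
    detOn f P = detOn g P := by
  have hf : ∀ x ∈ P, f x ∈ P := fun x hx => by rw [h x hx]; exact hg x hx
  rw [detOn_eq f P hf, detOn_eq g P hg]
  congr 1
  ext x
  exact h x x.2

lemma detQuot_of_sub (f : W ≃ₗ[ℂ] W) (P : Submodule ℂ W) (h : ∀ x, f x - x ∈ P) : detQuot f P = 1 := by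
  have hf : P ≤ P.comap (f : W →ₗ[ℂ] W) := by
    intro x hx
    have e : f x = (f x - x) + x := by abel
    change f x ∈ P
    rw [e]
    exact Submodule.add_mem _ (h x) hx
  rw [detQuot_eq f P hf]
  have : P.mapQ P (f : W →ₗ[ℂ] W) hf = LinearMap.id := by
    apply Submodule.linearMap_qext
    ext x
    rw [LinearMap.comp_apply, Submodule.mkQ_apply, Submodule.mapQ_apply, LinearMap.comp_apply, LinearMap.id_apply,
      Submodule.mkQ_apply, Submodule.Quotient.eq]
    exact h x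
  rw [this, LinearMap.det_id]

lemma detOn_top (g : W ≃ₗ[ℂ] W) : detOn g ⊤ = LinearMap.det (g : W →ₗ[ℂ] W) := by
  rw [detOn_eq g ⊤ (fun _ _ => trivial)]
  have h1 := LinearMap.det_conj (g : W →ₗ[ℂ] W) (Submodule.topEquiv (R := ℂ) (M := W)).symm
  rw [← h1]
  congr 1

end

lemma ceig_sup (T : Mot V) : T.ceig (((1 : ℤˣ) : ℤ) : ℂ) ⊔ T.ceig (((-1 : ℤˣ) : ℤ) : ℂ) = ⊤ := by
  rw [eq_top_iff]
  intro x _
  have e : x = (1 / 2 : ℂ) • (x + T.F x) + (1 / 2 : ℂ) • (x - T.F x) := by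
    rw [← smul_add, add_add_sub_cancel, ← two_smul ℂ x, smul_smul]
    norm_num
  rw [e]
  refine Submodule.add_mem_sup ?_ ?_
  · rw [Mot.mem_ceig, map_smul, map_add, T.F_sq]
    push_cast
    rw [one_smul, add_comm]
  · rw [Mot.mem_ceig, map_smul, map_sub, T.F_sq]
    push_cast
    rw [neg_one_smul, ← smul_neg, neg_sub]

lemma ceig_disj (T : Mot V) : Disjoint (T.ceig (((1 : ℤˣ) : ℤ) : ℂ)) (T.ceig (((-1 : ℤˣ) : ℤ) : ℂ)) := by
  rw [Submodule.disjoint_def]
  intro x h1 h2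
  rw [Mot.mem_ceig] at h1 h2
  push_cast at h1 h2
  rw [one_smul] at h1
  rw [h1, neg_one_smul] at h2
  have h3 : (2 : ℂ) • x = 0 := by rw [two_smul]; nth_rewrite 1 [h2]; rw [neg_add_cancel]
  exact (smul_eq_zero.1 h3).resolve_left two_ne_zero

lemma period_ne_zero {T : Mot V} (hT : NoMiddle T) {s : ℤˣ} {c : ℂ} (hc : T.IsPeriod s c) : c ≠ 0 := by
  have : IsScalarTower ℚ ℂ V := scalar
  obtain ⟨i, hi, n, e, v, A, he, heb, hv, hvb, hA, rfl⟩ := hc
  intro h0
  obtain ⟨a, ha, hA0⟩ := Matrix.exists_mulVec_eq_zero_iff.2 h0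
  apply ha
  have h1 : ∑ j, a j • e j ∈ T.fil i := by
    have h2 : ∑ j, a j • (e j - ∑ k, A k j • v k) = ∑ j, a j • e j := by
      simp_rw [smul_sub, Finset.sum_sub_distrib]
      rw [sub_eq_self]
      simp_rw [Finset.smul_sum, smul_smul]
      rw [Finset.sum_comm]
      refine Finset.sum_eq_zero fun k _ => ?_
      rw [← Finset.sum_smul]
      have h3 := congrFun hA0 k
      rw [Matrix.mulVec, dotProduct, Pi.zero_apply] at h3
      have h4 : ∑ j, a j * A k j = 0 := by rw [← h3]; exact Finset.sum_congr rfl fun j _ => mul_comm _ _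
      rw [h4, zero_smul]
    rw [← h2]
    exact Submodule.sum_mem _ fun j _ => Submodule.smul_mem _ _ (hA j)
  rw [fil_of_finrank hT hi] at h1
  have h5 : T.F (∑ j, a j • e j) = ((s : ℤ) : ℂ) • ∑ j, a j • e j := by
    rw [map_sum, Finset.smul_sum]
    exact Finset.sum_congr rfl fun j _ => by rw [map_smul, (he j).2, smul_comm]
  have h6 : ((s : ℤ) : ℂ) • ∑ j, a j • e j ∈ T.low (mid T - 1) := by
    rw [← h5]; exact low_mid_fil h1
  have h7 : ((s : ℤ) : ℂ) • ∑ j, a j • e j = 0 :=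
    Submodule.disjoint_def.1 (T.disj (show mid T - 1 < mid T by omega)) _ (Submodule.smul_mem _ _ h1) h6
  have hs : ((s : ℤ) : ℂ) ≠ 0 := by
    rcases Int.units_eq_one_or s with rfl | rfl <;> simp
  have h8 := (smul_eq_zero.1 h7).resolve_left hs
  exact funext (Fintype.linearIndependent_iff.1 (eig_indep T ⟨he, heb⟩) a h8)

lemma delta_ne_zero {T : Mot V} {δ : ℂ} (hδ : IsPeriodDet T δ) : δ ≠ 0 := by
  have : IsScalarTower ℚ ℂ V := scalar
  obtain ⟨n, e, v, P, he, hv, hP, rfl⟩ := hδ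
  intro h0
  obtain ⟨a, ha, hA0⟩ := Matrix.exists_mulVec_eq_zero_iff.2 h0
  apply ha
  have h1 : ∑ j, a j • e j = 0 := by
    simp_rw [hP, Finset.smul_sum, smul_smul]
    rw [Finset.sum_comm]
    refine Finset.sum_eq_zero fun k _ => ?_
    rw [← Finset.sum_smul]
    have h2 := congrFun hA0 k
    rw [Matrix.mulVec, dotProduct, Pi.zero_apply] at h2
    have h3 : ∑ j, a j * P k j = 0 := by rw [← h2]; exact Finset.sum_congr rfl fun j _ => mul_comm _ _
    rw [h3, zero_smul]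
  exact funext (Fintype.linearIndependent_iff.1 (basis_indepC T.B_rat le_rfl he) a h1)

/-- the Galois action on `c⁺ c⁻ / δ` -/
lemma cc_trans' [FiniteDimensional ℂ V] {T : Mot V} {σ : ℂ ≃+* ℂ} (D : Data T ⊤ σ) (hT : NoMiddle T) {cp cm δ : ℂ}
    (hcp : T.IsPeriod 1 cp) (hcm : T.IsPeriod (-1) cm) (hδ : IsPeriodDet T δ) :
    σ (cp * cm / δ) = cp * cm / δ * detOn (D.l : V ≃ₗ[ℂ] V) (T.fil (mid T)) := by
  have : IsScalarTower ℚ ℂ V := scalar
  have hδ0 := delta_ne_zero hδ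
  have hcp0 := period_ne_zero hT hcp
  have hcm0 := period_ne_zero hT hcm
  have hl := D.l_isLevi
  have hl' := D.l_anti
  set l : V ≃ₗ[ℂ] V := (D.l : V ≃ₗ[ℂ] V) with hldef
  set m := half T (mid T) l hl with hm
  have hmlevi : IsLevi T m := half_levi _ l hl
  set u : V ≃ₗ[ℂ] V := (D.u : V ≃ₗ[ℂ] V) with hudef
  set g : V ≃ₗ[ℂ] V := (D.g : V ≃ₗ[ℂ] V) with hgdef
  have hu : IsUnip T u := by rw [hudef, D.hu]; exact uEq_unip T D.hD
  have hgD : ∀ x, g (D.sD x) = D.sB x := by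
    intro x
    rw [hgdef, D.hg]
    change D.sB (D.sD.symm (D.sD x)) = _
    rw [D.sD.symm_apply_apply]
  -- `g u⁻¹ F l = F g u⁻¹`
  have h1 : ∀ x, g (u.symm (T.F (l x))) = T.F (g (u.symm x)) := by
    intro x
    have e1 : l x = T.F (u (g.symm (T.F (g (u.symm x))))) := by
      have : l x = (D.F : V ≃ₗ[ℂ] V) (u (g.symm ((D.F : V ≃ₗ[ℂ] V) (g (u.symm x))))) := rfl
      rw [this, D.hF]
      rfl
    rw [e1, T.F_sq, u.symm_apply_apply, g.apply_symm_apply]
  set k : V ≃ₗ[ℂ] V := g * u⁻¹ * m⁻¹ with hkdef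
  have hkapp : ∀ x, k x = g (u.symm (m.symm x)) := fun x => rfl
  have hk : ∀ x, k (T.F x) = T.F (k x) := by
    intro x
    rw [hkapp, hkapp]
    obtain ⟨y, rfl⟩ := m.surjective x
    rw [m.symm_apply_apply]
    have e2 : T.F (m y) = m (T.F (l y)) := (half_comm hT l hl hl' y).symm
    rw [e2, m.symm_apply_apply, h1]
  have hkm : ∀ x, k ((m * u) (D.sD x)) = D.sB x := by
    intro x
    have e3 : (m * u) (D.sD x) = m (u (D.sD x)) := rfl
    rw [hkapp, e3, m.symm_apply_apply, u.symm_apply_apply, hgD]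
  have hmfil : ∀ x ∈ T.fil (mid T), m x ∈ T.fil (mid T) := fun x hx => levi_fil hmlevi hx
  have hufil : ∀ x ∈ T.fil (mid T), u x ∈ T.fil (mid T) := fun x hx => unip_fil hu hx
  have hmufil : ∀ x ∈ T.fil (mid T), (m * u) x ∈ T.fil (mid T) := fun x hx => hmfil _ (hufil x hx)
  have hq1 : detQuot m (T.fil (mid T)) = 1 := by
    apply detQuot_of_sub
    intro x
    have e4 : m x - x = l (proj T (mid T) x) - proj T (mid T) x := by
      rw [hm, half_apply]; abel
    rw [e4]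
    have e5 : proj T (mid T) x ∈ T.fil (mid T) := by
      rw [proj, LinearMap.sum_apply]
      refine Submodule.sum_mem _ fun p hp => ?_
      rw [Finset.mem_filter] at hp
      exact T.H_le_fil hp.2 (comp_mem p x)
    exact Submodule.sub_mem _ (levi_fil hl e5) e5
  have hq2 : detQuot (m * u) (T.fil (mid T)) = 1 := by
    rw [detQuot_mul m u _ hmfil hufil, hq1, unip_detQuot hu, one_mul]
  have hper : ∀ (s : ℤˣ) (c : ℂ), T.IsPeriod s c → σ c * detOn k (T.ceig ((s : ℤ) : ℂ)) = c := by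
    intro s c hc
    obtain ⟨i, hi, n, e, v, A, he, heb, hv, hvb, hA, rfl⟩ := hc
    have hfil := fil_of_finrank hT hi
    have h2 := period_trans T D.hB D.hD ⟨he, heb⟩ hv hvb hA k (m * u) hk
      (by rw [hfil]; exact hmufil) hkm
    rwa [hfil, hq2, mul_one] at h2
  have hcp' := hper 1 cp hcp
  have hcm' := hper (-1) cm hcm
  have hδ' := delta_trans T D.hB D.hD hδ g hgD
  -- the determinant of `g`
  have hkC : ∀ s : ℤˣ, ∀ x ∈ T.ceig ((s : ℤ) : ℂ), k x ∈ T.ceig ((s : ℤ) : ℂ) := by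
    intro s x hx
    rw [Mot.mem_ceig] at hx ⊢
    rw [← hk, hx, map_smul]
  have hdk : LinearMap.det (k : V →ₗ[ℂ] V) =
      detOn k (T.ceig (((1 : ℤˣ) : ℤ) : ℂ)) * detOn k (T.ceig (((-1 : ℤˣ) : ℤ) : ℂ)) := by
    rw [← detOn_sup k _ _ (hkC 1) (hkC (-1)) (ceig_disj T), ceig_sup, detOn_top]
  have hdm : LinearMap.det (m : V →ₗ[ℂ] V) = detOn l (T.fil (mid T)) := by
    have h3 := LinearMap.det_eq_det_mul_det (T.fil (mid T)) (m : V →ₗ[ℂ] V) (fun x hx => hmfil x hx)
    rw [← detQuot_eq m _ (fun x hx => hmfil x hx), hq1, mul_one, ← detOn_eq m _ (fun x hx => hmfil x hx)] at h3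
    rw [h3]
    exact detOn_congr m l _ (fun x hx => levi_fil hl hx) fun x hx => half_fil _ _ _ hx
  have hdg : LinearMap.det (g : V →ₗ[ℂ] V) = LinearMap.det (k : V →ₗ[ℂ] V) * detOn l (T.fil (mid T)) := by
    have e6 : (g : V →ₗ[ℂ] V) = (k : V →ₗ[ℂ] V) ∘ₗ ((m : V →ₗ[ℂ] V) ∘ₗ (u : V →ₗ[ℂ] V)) := by
      ext x
      change g x = k (m (u x))
      rw [hkapp, m.symm_apply_apply, u.symm_apply_apply]
    rw [e6, LinearMap.det_comp, LinearMap.det_comp, hdm, unip_det hu, mul_one]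
  have hσδ : σ δ ≠ 0 := by simpa using hδ0
  have hl0 : detOn l (T.fil (mid T)) ≠ 0 := by
    intro h0
    rw [h0, mul_zero] at hdg
    rw [hdg, mul_zero] at hδ'
    exact hδ0 hδ'.symm
  rw [map_div₀, map_mul, div_mul_eq_mul_div, div_eq_div_iff hσδ hδ0]
  calc σ cp * σ cm * δ
      = σ cp * σ cm * (σ δ * LinearMap.det (g : V →ₗ[ℂ] V)) := by rw [hδ']
    _ = (σ cp * detOn k (T.ceig (((1 : ℤˣ) : ℤ) : ℂ))) * (σ cm * detOn k (T.ceig (((-1 : ℤˣ) : ℤ) : ℂ))) *
        (σ δ * detOn l (T.fil (mid T))) := by rw [hdg, hdk]; ring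
    _ = cp * cm * (σ δ * detOn l (T.fil (mid T))) := by rw [hcp', hcm']
    _ = cp * cm * detOn l (T.fil (mid T)) * σ δ := by ring

end Pool.Agent.H15.CR
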