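import Pool.Agent.H15.CR.PartA
import Pool.Agent.H15.CR.Dets

/-! The Galois action on Deligne's periods and on the period determinant. -/

set_option autoImplicit false

namespace Pool.Agent.H15.CR

open Module Pool.Agent.H15.SP

variable {V : Type} [AddCommGroup V] [Module ℂ V] [Module ℚ V] [FiniteDimensional ℂ V] [IsScalarTower ℚ ℂ V]

section

variable {σ : ℂ ≃+* ℂ} {sB sD : V ≃+ V}

omit [FiniteDimensional ℂ V] [IsScalarTower ℚ ℂ V] in
lemma eig_indep (T : Mot V) {s : ℤˣ} {n : ℕ} {e : Fin n → V} (he : IsBasisOf e (T.eig s)) :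
    LinearIndependent ℂ e :=
  basis_indepC T.B_rat (fun x (hx : x ∈ T.eig s) => hx.1) he

omit [FiniteDimensional ℂ V] in
lemma eig_span (T : Mot V) {s : ℤˣ} {n : ℕ} {e : Fin n → V} (he : IsBasisOf e (T.eig s)) {x : V}
    (hx : x ∈ T.ceig ((s : ℤ) : ℂ)) : ∃ a : Fin n → ℂ, x = ∑ k, a k • e k := by
  rw [← span_eig] at hx
  exact basis_span he hx

lemma period_trans (T : Mot V) (hB : IsConj σ T.B sB) (hD : IsConj σ T.D sD) {s : ℤˣ} {i : ℤ} {n : ℕ}
    {e v : Fin n → V} {A : Matrix (Fin n) (Fin n) ℂ}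
    (he : IsBasisOf e (T.eig s)) (hv : ∀ k, v k ∈ T.D)
    (hvb : ∀ x ∈ T.D, ∃! a : Fin n → ℚ, x - ∑ k, (a k : ℂ) • v k ∈ T.fil i)
    (hA : ∀ j, e j - ∑ k, A k j • v k ∈ T.fil i)
    (k m : V ≃ₗ[ℂ] V) (hk : ∀ x, k (T.F x) = T.F (k x)) (hm : ∀ x ∈ T.fil i, m x ∈ T.fil i)
    (hkm : ∀ x, k (m (sD x)) = sB x) :
    σ A.det * (detOn k (T.ceig ((s : ℤ) : ℂ)) * detQuot m (T.fil i)) = A.det := by
  have heC : ∀ j, e j ∈ T.ceig ((s : ℤ) : ℂ) := fun j => Mot.mem_ceig.2 (he.1 j).2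
  have hkC : ∀ x ∈ T.ceig ((s : ℤ) : ℂ), k x ∈ T.ceig ((s : ℤ) : ℂ) := by
    intro x hx
    rw [Mot.mem_ceig] at hx ⊢
    rw [← hk, hx, map_smul]
  have hkC' : ∀ x ∈ T.ceig ((s : ℤ) : ℂ), k⁻¹ x ∈ T.ceig ((s : ℤ) : ℂ) := by
    intro x hx
    rw [Mot.mem_ceig] at hx ⊢
    have e1 : ∀ y, k (k⁻¹ y) = y := fun y => k.apply_symm_apply y
    apply k.injective
    rw [hk, e1, hx, map_smul, e1]
  choose L hL using fun j => eig_span T he (hkC' _ (heC j))
  choose N hN using fun j => span_mod T i v hvb (m (v j))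
  have hdL : detOn k⁻¹ (T.ceig ((s : ℤ) : ℂ)) = (Matrix.of fun i j => L j i).det :=
    detOn_basis k⁻¹ _ e heC (eig_indep T he) (fun z hz => eig_span T he hz) _ (fun j => hL j)
  have hdN : detQuot m (T.fil i) = (Matrix.of fun i j => N j i).det :=
    detQuot_basis m _ hm v (fun a ha => indep_mod' T i v hv hvb a ha) (span_mod T i v hvb) _ (fun j => hN j)
  have hdk : detOn k (T.ceig ((s : ℤ) : ℂ)) * detOn k⁻¹ (T.ceig ((s : ℤ) : ℂ)) = 1 := by
    rw [← detOn_mul k k⁻¹ _ hkC hkC', mul_inv_cancel, detOn_one]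
  -- the matrix identity
  have h1 : ∀ j, m (sD (e j)) = k⁻¹ (e j) := by
    intro j
    apply k.injective
    rw [hkm]
    have e1 : k (k⁻¹ (e j)) = e j := k.apply_symm_apply _
    rw [e1]
    exact hB.2 _ (he.1 j).1
  have h2 : ∀ j, m (sD (e j)) - ∑ l, ((Matrix.of fun i j => N j i) * A.map σ) l j • v l ∈ T.fil i := by
    intro j
    have h3 : sD (e j) - ∑ k, σ (A k j) • v k ∈ T.fil i := by
      have h4 := conj_fil hD i _ (hA j)
      have h5 : sD.toAddMonoidHom (e j - ∑ k, A k j • v k) = sD (e j) - ∑ k, σ (A k j) • v k := by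
        rw [map_sub, map_sum]
        congr 1
        refine Finset.sum_congr rfl fun k _ => ?_
        change sD (A k j • v k) = _
        rw [hD.1, hD.2 _ (hv k)]
      rwa [h5] at h4
    have h6 := hm _ h3
    rw [map_sub, map_sum] at h6
    have h7 : ∑ k, m (σ (A k j) • v k) - ∑ l, ((Matrix.of fun i j => N j i) * A.map σ) l j • v l ∈ T.fil i := by
      have h8 : ∑ k, m (σ (A k j) • v k) - ∑ l, ((Matrix.of fun i j => N j i) * A.map σ) l j • v l =
          ∑ k, σ (A k j) • (m (v k) - ∑ l, N k l • v l) := by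
        simp_rw [smul_sub, Finset.sum_sub_distrib, map_smul]
        congr 1
        simp_rw [Finset.smul_sum, smul_smul]
        rw [Finset.sum_comm]
        refine Finset.sum_congr rfl fun l _ => ?_
        rw [Matrix.mul_apply, Finset.sum_smul]
        exact Finset.sum_congr rfl fun k _ => by rw [Matrix.of_apply, Matrix.map_apply, mul_comm]
      rw [h8]
      exact Submodule.sum_mem _ fun k _ => Submodule.smul_mem _ _ (hN k)
    have := Submodule.add_mem _ h6 h7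
    rwa [sub_add_sub_cancel] at this
  have h3 : ∀ j, m (sD (e j)) - ∑ l, (A * (Matrix.of fun i j => L j i)) l j • v l ∈ T.fil i := by
    intro j
    rw [h1, hL]
    have h8 : ∑ k, L j k • e k - ∑ l, (A * (Matrix.of fun i j => L j i)) l j • v l =
        ∑ k, L j k • (e k - ∑ l, A l k • v l) := by
      simp_rw [smul_sub, Finset.sum_sub_distrib]
      congr 1
      simp_rw [Finset.smul_sum, smul_smul]
      rw [Finset.sum_comm]
      refine Finset.sum_congr rfl fun l _ => ?_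
      rw [Matrix.mul_apply, Finset.sum_smul]
      exact Finset.sum_congr rfl fun k _ => by rw [Matrix.of_apply, mul_comm]
    rw [h8]
    exact Submodule.sum_mem _ fun k _ => Submodule.smul_mem _ _ (hA k)
  have h4 : (Matrix.of fun i j => N j i) * A.map σ = A * (Matrix.of fun i j => L j i) := by
    ext l j
    have h5 := Submodule.sub_mem _ (h3 j) (h2 j)
    rw [sub_sub_sub_cancel_left, ← Finset.sum_sub_distrib] at h5
    simp_rw [← sub_smul] at h5
    have h6 := indep_mod' T i v hv hvb _ h5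
    exact sub_eq_zero.1 (congrFun h6 l)
  have h5 : σ A.det = (A.map σ).det := by
    have := RingHom.map_det (σ : ℂ →+* ℂ) A
    exact this
  have h6 := congrArg Matrix.det h4
  rw [Matrix.det_mul, Matrix.det_mul, ← h5, ← hdL, ← hdN] at h6
  calc σ A.det * (detOn k (T.ceig ((s : ℤ) : ℂ)) * detQuot m (T.fil i))
      = (detQuot m (T.fil i) * σ A.det) * detOn k (T.ceig ((s : ℤ) : ℂ)) := by ring
    _ = A.det * (detOn k (T.ceig ((s : ℤ) : ℂ)) * detOn k⁻¹ (T.ceig ((s : ℤ) : ℂ))) := by rw [h6]; ring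
    _ = A.det := by rw [hdk, mul_one]

omit [FiniteDimensional ℂ V] [IsScalarTower ℚ ℂ V] in
lemma delta_trans (T : Mot V) (hB : IsConj σ T.B sB) (hD : IsConj σ T.D sD) {δ : ℂ} (hδ : IsPeriodDet T δ)
    (g : V ≃ₗ[ℂ] V) (hg : ∀ x, g (sD x) = sB x) : σ δ * LinearMap.det (g : V →ₗ[ℂ] V) = δ := by
  have : IsScalarTower ℚ ℂ V := scalar
  obtain ⟨n, e, v, P, he, hv, hP, rfl⟩ := hδ
  have hvC : LinearIndependent ℂ v := basis_indepC T.D_rat le_rfl hv
  have hvS : ∀ x, ∃ a : Fin n → ℂ, x = ∑ k, a k • v k := fun x => basis_span hv (by rw [T.D_rat.span_eq_top]; trivial)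
  choose N hN using fun j => hvS (g (v j))
  have hdN : detOn g ⊤ = (Matrix.of fun i j => N j i).det :=
    detOn_basis g ⊤ v (fun _ => trivial) hvC (fun z _ => hvS z) _ (fun j => hN j)
  have hdg : detOn g ⊤ = LinearMap.det (g : V →ₗ[ℂ] V) := by
    rw [detOn_eq g ⊤ (fun _ _ => trivial)]
    have h1 := LinearMap.det_conj (g : V →ₗ[ℂ] V) (Submodule.topEquiv (R := ℂ) (M := V)).symm
    rw [← h1]
    congr 1
  have h2 : (Matrix.of fun i j => N j i) * P.map σ = P := by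
    ext l j
    have h3 : ∑ l, ((Matrix.of fun i j => N j i) * P.map σ) l j • v l = ∑ l, P l j • v l := by
      rw [← hP]
      have h4 : e j = g (sD (e j)) := by rw [hg, hB.2 _ (he.1 j)]
      rw [h4, hP, map_sum, map_sum]
      have h5 : ∀ k, g (sD (P k j • v k)) = ∑ l, (N k l * σ (P k j)) • v l := by
        intro k
        rw [hD.1, hD.2 _ (hv.1 k), map_smul, hN, Finset.smul_sum]
        exact Finset.sum_congr rfl fun l _ => by rw [smul_smul, mul_comm]
      simp_rw [h5]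
      rw [Finset.sum_comm]
      refine Finset.sum_congr rfl fun l _ => ?_
      rw [← Finset.sum_smul, Matrix.mul_apply]
      simp only [Matrix.of_apply, Matrix.map_apply]
    rw [← sub_eq_zero, ← Finset.sum_sub_distrib] at h3
    simp_rw [← sub_smul] at h3
    exact sub_eq_zero.1 (Fintype.linearIndependent_iff.1 hvC _ h3 l)
  have h5 : σ P.det = (P.map σ).det := by
    have := RingHom.map_det (σ : ℂ →+* ℂ) P
    exact this
  rw [h5, ← hdg, hdN, mul_comm, ← Matrix.det_mul, h2]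

end

section

variable {W : Type} [AddCommGroup W] [Module ℂ W] [FiniteDimensional ℂ W]

lemma detOn_sup (f : W ≃ₗ[ℂ] W) (P Q : Submodule ℂ W) (hP : ∀ x ∈ P, f x ∈ P) (hQ : ∀ x ∈ Q, f x ∈ Q)
    (hd : Disjoint P Q) : detOn f (P ⊔ Q) = detOn f P * detOn f Q := by
  have hPQ : ∀ x ∈ P ⊔ Q, (f : W →ₗ[ℂ] W) x ∈ P ⊔ Q := by
    intro x hx
    obtain ⟨y, hy, z, hz, rfl⟩ := Submodule.mem_sup.1 hx
    rw [map_add]
    exact Submodule.add_mem_sup (hP y hy) (hQ z hz)
  let φ : (P × Q) →ₗ[ℂ] ↥(P ⊔ Q) :=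
    LinearMap.coprod (Submodule.inclusion le_sup_left) (Submodule.inclusion le_sup_right)
  have hφ : ∀ x : P × Q, ((φ x : ↥(P ⊔ Q)) : W) = x.1 + x.2 := fun x => by simp [φ]
  have hinj : Function.Injective φ := by
    rw [← LinearMap.ker_eq_bot, LinearMap.ker_eq_bot']
    rintro ⟨x, y⟩ hxy
    have h1 := hφ (x, y)
    rw [hxy] at h1
    have h2 : (x : W) = -(y : W) := by
      have : (x : W) + y = 0 := h1.symm
      exact eq_neg_of_add_eq_zero_left this
    have h3 : (x : W) = 0 := Submodule.disjoint_def.1 hd _ x.2 (by rw [h2]; exact Submodule.neg_mem _ y.2)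
    have h4 : (y : W) = 0 := by rw [h3] at h2; exact neg_eq_zero.1 h2.symm
    exact Prod.ext (Subtype.ext h3) (Subtype.ext h4)
  have hsurj : Function.Surjective φ := by
    rintro ⟨x, hx⟩
    obtain ⟨y, hy, z, hz, rfl⟩ := Submodule.mem_sup.1 hx
    exact ⟨(⟨y, hy⟩, ⟨z, hz⟩), Subtype.ext (hφ _)⟩
  let e := LinearEquiv.ofBijective φ ⟨hinj, hsurj⟩
  rw [detOn_eq f _ hPQ, detOn_eq f P hP, detOn_eq f Q hQ]
  have h1 := LinearMap.det_prodMap ((f : W →ₗ[ℂ] W).restrict hP) ((f : W →ₗ[ℂ] W).restrict hQ)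
  rw [← h1, ← LinearMap.det_conj _ e]
  congr 1
  apply LinearMap.ext
  intro x
  obtain ⟨y, rfl⟩ := e.surjective x
  apply Subtype.ext
  rw [LinearMap.comp_apply, LinearMap.comp_apply]
  have h2 : (e.symm : ↥(P ⊔ Q) →ₗ[ℂ] (P × Q)) (e y) = y := e.symm_apply_apply y
  rw [h2]
  have h3 : ∀ z, ((((e : (P × Q) →ₗ[ℂ] ↥(P ⊔ Q)) z) : ↥(P ⊔ Q)) : W) = z.1 + z.2 := hφ
  rw [h3]
  have h4 : (((f : W →ₗ[ℂ] W).restrict hPQ (e y) : ↥(P ⊔ Q)) : W) = f ((e y : ↥(P ⊔ Q)) : W) := rfl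
  rw [h4]
  have h5 : ((e y : ↥(P ⊔ Q)) : W) = y.1 + y.2 := hφ y
  rw [h5, map_add]
  rfl

lemma detOn_bot (f : W ≃ₗ[ℂ] W) : detOn f ⊥ = 1 := by
  have h : ∀ x ∈ (⊥ : Submodule ℂ W), (f : W →ₗ[ℂ] W) x ∈ (⊥ : Submodule ℂ W) := by
    intro x hx
    rw [Submodule.mem_bot] at hx ⊢
    rw [hx, map_zero]
  rw [detOn_eq f _ h]
  have : (f : W →ₗ[ℂ] W).restrict h = LinearMap.id := by
    ext x
  rw [this, LinearMap.det_id]

end

omit [IsScalarTower ℚ ℂ V] in
lemma detOn_biSup (T : Mot V) (f : V ≃ₗ[ℂ] V) (hf : IsLevi T f) (S : Finset ℤ) :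
    detOn f (⨆ p ∈ S, T.H p) = ∏ p ∈ S, detOn f (T.H p) := by
  classical
  induction S using Finset.induction_on with
  | empty => simp [detOn_bot]
  | insert p S hp ih =>
    rw [Finset.prod_insert hp, ← ih, Finset.iSup_insert]
    refine detOn_sup f _ _ (hf p) ?_ ?_
    · intro x hx
      have : (⨆ p ∈ S, T.H p) ≤ (⨆ p ∈ S, T.H p).comap (f : V →ₗ[ℂ] V) := by
        refine iSup₂_le fun q hq => ?_
        intro y hy
        exact (le_iSup₂_of_le (f := fun p (_ : p ∈ S) => T.H p) q hq le_rfl) (hf q y hy)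
      exact this hx
    · have h1 := T.decomp.submodule_iSupIndep
      have h2 := h1.disjoint_biSup (x := p) (y := (S : Set ℤ)) (by simpa using hp)
      simpa using h2

omit [IsScalarTower ℚ ℂ V] in
lemma detOn_fil (T : Mot V) (f : V ≃ₗ[ℂ] V) (hf : IsLevi T f) (i : ℤ) (S : Finset ℤ) (hS : ∀ p ∈ S, i ≤ p)
    (hS' : ∀ p, i ≤ p → p ∉ S → T.H p = ⊥) : detOn f (T.fil i) = ∏ p ∈ S, detOn f (T.H p) := by
  rw [← detOn_biSup T f hf S]
  congr 1
  apply le_antisymm
  · refine iSup₂_le fun p hp => ?_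
    by_cases h : p ∈ S
    · exact le_iSup₂_of_le (f := fun p (_ : p ∈ S) => T.H p) p h le_rfl
    · rw [hS' p hp h]; exact bot_le
  · exact iSup₂_le fun p hp => T.H_le_fil (hS p hp)

end Pool.Agent.H15.CR
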