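import Pool.Agent.H15.CR.PartC

/-! Quadratic periods. -/

set_option autoImplicit false

namespace Pool.Agent.H15.CR

open Module Pool.Agent.H15.SP

/-- `x` is the quadratic period of the motive `T` which belongs to the subspace `W`: either `W` is a piece
`H^{p, w - p}` of the Hodge decomposition and `x` is the Hodge period `δ_p(T)`, or `T` has no classes of type `(p, p)`,
`W` is the upper half of the Hodge filtration and `x = c⁺(T) c⁻(T) / δ(T)`. -/
def IsQuad {V : Type} [AddCommGroup V] [Module ℂ V] [Module ℚ V] (T : Mot V) (W : Submodule ℂ V) (x : ℂ) : Prop :=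
  (∃ p, W = T.H p ∧ IsHodgePeriod T p x) ∨
  (NoMiddle T ∧ W = T.fil (mid T) ∧ ∃ cp cm δ : ℂ, T.IsPeriod 1 cp ∧ T.IsPeriod (-1) cm ∧ IsPeriodDet T δ ∧
    x = cp * cm / δ)

lemma quad_ne_zero {V : Type} [AddCommGroup V] [Module ℂ V] [Module ℚ V] {T : Mot V} {W : Submodule ℂ V} {x : ℂ}
    (hx : IsQuad T W x) : x ≠ 0 := by
  rcases hx with ⟨p, -, hp⟩ | ⟨hT, -, cp, cm, δ, hcp, hcm, hδ, rfl⟩
  · exact hodge_ne_zero T hp
  · exact div_ne_zero (mul_ne_zero (period_ne_zero hT hcp) (period_ne_zero hT hcm)) (delta_ne_zero hδ)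

section

variable {U : Type} [AddCommGroup U] [Module ℂ U] [Module ℚ U] [FiniteDimensional ℂ U] {M : Mot U}
  {G : Subgroup (U ≃ₗ[ℂ] U)} {σ : ℂ ≃+* ℂ} (D : Data M G σ)
  {V : Type} [AddCommGroup V] [Module ℂ V] [Module ℚ V] [FiniteDimensional ℂ V] {T : Mot V}
  {ρ : G →* (V ≃ₗ[ℂ] V)} (h : IsConstruction M G T ρ)

include h

lemma Data.quad {W : Submodule ℂ V} {x : ℂ} (hx : IsQuad T W x) : σ x = x * detOn (ρ D.l) W := by
  rcases hx with ⟨p, rfl, hp⟩ | ⟨hT, rfl, cp, cm, δ, hcp, hcm, hδ, rfl⟩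
  · exact D.hodge h hp
  · obtain ⟨sB', hB'⟩ := IsRat.conj T.B_rat σ
    obtain ⟨sD', hD'⟩ := IsRat.conj T.D_rat σ
    let D' : Data T ⊤ σ := ⟨sB', sD', hB', hD', ⟨Feq T, trivial⟩, ⟨lin sB' sD' hB'.semi hD'.semi, trivial⟩,
      ⟨uEq T hD', trivial⟩, rfl, rfl, rfl⟩
    rw [cc_trans' D' hT hcp hcm hδ]
    congr 1
    have h1 : ∀ y, (D'.l : V ≃ₗ[ℂ] V) y = T.F (Fconj T hD' y) := fun y =>
      rho_l (Data.self T ⊤) D'.hB D'.hD D'.hB D'.hD D'.hF D'.hg D'.hu y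
    have h2 : ∀ y, ρ D.l y = T.F (Fconj T hD' y) := rho_l h D.hB D.hD hB' hD' D.hF D.hg D.hu
    refine detOn_congr _ _ _ ?_ fun x _ => by rw [h1, h2]
    intro x hx
    exact levi_fil (h.levi _ D.l_isLevi) hx

end

/-- **Relations between the quadratic periods of the constructions.** -/
theorem quad_relation {U : Type} [AddCommGroup U] [Module ℂ U] [Module ℚ U] (M : Mot U)
    {J : Type} {k : J → ℕ} {t : ∀ j, MultilinearMap ℂ (fun _ : Fin (k j) => U) ℂ} (ht : ∀ j, IsTensor M (t j))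
    {I : Type} [Fintype I] {V : I → Type} [∀ i, AddCommGroup (V i)] [∀ i, Module ℂ (V i)] [∀ i, Module ℚ (V i)]
    (T : ∀ i, Mot (V i)) (ρ : ∀ i, strGroup t →* (V i ≃ₗ[ℂ] V i))
    (hρ : ∀ i, IsConstruction M (strGroup t) (T i) (ρ i)) (a : I → ℤ) (W : ∀ i, Submodule ℂ (V i)) (x : I → ℂ)
    (hx : ∀ i, IsQuad (T i) (W i) (x i))
    (hchar : ∀ l : strGroup t, IsLevi M l → (∀ y, M.F ((l : U ≃ₗ[ℂ] U) (M.F ((l : U ≃ₗ[ℂ] U) y))) = y) →
      ∏ i, detOn (ρ i l) (W i) ^ a i = 1) :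
    ∃ q : ℚ, q ≠ 0 ∧ ∏ i, x i ^ a i = q := by
  have : FiniteDimensional ℂ U := finDim M
  have hV : ∀ i, FiniteDimensional ℂ (V i) := fun i => finDim (T i)
  obtain ⟨q, hq⟩ := rational_of_fixed (x := ∏ i, x i ^ a i) (fun σ => by
    obtain ⟨D⟩ := exists_data M ht σ
    rw [map_prod]
    have h1 : ∀ i, σ (x i ^ a i) = x i ^ a i * detOn (ρ i D.l) (W i) ^ a i := by
      intro i
      rw [map_zpow₀, D.quad (hρ i) (hx i), mul_zpow]
    simp_rw [h1]
    rw [Finset.prod_mul_distrib, hchar D.l D.l_isLevi D.l_anti, mul_one])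
  refine ⟨q, ?_, hq⟩
  rintro rfl
  rw [Rat.cast_zero, Finset.prod_eq_zero_iff] at hq
  obtain ⟨i, -, hi⟩ := hq
  exact zpow_ne_zero _ (quad_ne_zero (hx i)) hi

/-- **The product of the two Deligne periods of a motive without middle classes.** -/
theorem product_formula {V : Type} [AddCommGroup V] [Module ℂ V] [Module ℚ V] (T : Mot V) (hT : NoMiddle T)
    (S : Finset ℤ) (hS : ∀ p ∈ S, T.w < 2 * p)
    (hS' : ∀ p, T.w < 2 * p → p ∉ S → T.H p = ⊥) {cp cm δ : ℂ} {d : ℤ → ℂ} (hcp : T.IsPeriod 1 cp)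
    (hcm : T.IsPeriod (-1) cm) (hδ : IsPeriodDet T δ) (hd : ∀ p ∈ S, IsHodgePeriod T p (d p)) :
    ∃ q : ℚ, q ≠ 0 ∧ cp * cm = q * (δ * ∏ p ∈ S, d p) := by
  have : FiniteDimensional ℂ V := finDim T
  have hδ0 := delta_ne_zero hδ
  have hd0 : ∏ p ∈ S, d p ≠ 0 := Finset.prod_ne_zero_iff.2 fun p hp => hodge_ne_zero T (hd p hp)
  have hS2 : ∀ p ∈ S, mid T ≤ p := fun p hp => by
    have := hS p hp
    unfold mid
    omega
  obtain ⟨q, hq0, hq⟩ := quad_relation T (J := Empty) (k := fun j => nomatch j) (t := fun j => nomatch j)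
    (fun j => nomatch j) (I := Option S) (V := fun _ => V) (fun _ => T) (fun _ => (strGroup _).subtype)
    (fun _ => Data.self T _) (fun i => i.elim 1 fun _ => -1) (fun i => i.elim (T.fil (mid T)) fun p => T.H p)
    (fun i => i.elim (cp * cm / δ) fun p => d p)
    (by
      rintro (_ | ⟨p, hp⟩)
      · exact Or.inr ⟨hT, rfl, cp, cm, δ, hcp, hcm, hδ, rfl⟩
      · exact Or.inl ⟨p, rfl, hd p hp⟩)
    (by
      intro l hl hl'
      rw [Fintype.prod_option]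
      simp only [Option.elim]
      rw [zpow_one, Subgroup.coe_subtype, detOn_fil T l hl (mid T) S hS2 (fun p hp hpS => by
        by_cases h4 : T.w < 2 * p
        · exact hS' p h4 hpS
        · exfalso
          unfold mid at hp
          omega)]
      have h0 : ∀ p, detOn (l : V ≃ₗ[ℂ] V) (T.H p) ≠ 0 := by
        intro p h0
        have h1 : detOn (l : V ≃ₗ[ℂ] V) (T.H p) * detOn (l : V ≃ₗ[ℂ] V)⁻¹ (T.H p) = 1 := by
          rw [← detOn_mul (l : V ≃ₗ[ℂ] V) (l : V ≃ₗ[ℂ] V)⁻¹ _ (hl p) (levi_symm hl p), mul_inv_cancel, detOn_one]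
        rw [h0, zero_mul] at h1
        exact zero_ne_one h1
      simp_rw [zpow_neg, zpow_one]
      rw [Finset.prod_inv_distrib, Finset.prod_coe_sort S (fun p => detOn (l : V ≃ₗ[ℂ] V) (T.H p))]
      exact mul_inv_cancel₀ (Finset.prod_ne_zero_iff.2 fun p _ => h0 p))
  refine ⟨q, hq0, ?_⟩
  rw [Fintype.prod_option] at hq
  simp only [Option.elim, zpow_one, zpow_neg] at hq
  rw [Finset.prod_inv_distrib, Finset.prod_coe_sort S d] at hq
  rw [← hq]
  field_simp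

end Pool.Agent.H15.CR
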