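import Pool.Agent.H15.CR.Conj

/-! The structure group contains `F_∞`, `s_B s_D⁻¹` and `s_gr s_D⁻¹`. -/

set_option autoImplicit false

namespace Pool.Agent.H15.CR

open Module Pool.Agent.H15.SP

variable {U : Type} [AddCommGroup U] [Module ℂ U]

omit [AddCommGroup U] [Module ℂ U] in
lemma update_comp {k : ℕ} [DecidableEq (Fin k)] (s : U → U) (x : Fin k → U) (i : Fin k) (a : U) :
    (fun j => s (Function.update x i a j)) = Function.update (fun j => s (x j)) i (s a) := by
  funext j
  by_cases h : j = i
  · subst h; simp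
  · simp [h]

/-- the conjugate multilinear form -/
noncomputable def pull {k : ℕ} {σ : ℂ ≃+* ℂ} {s : U ≃+ U} (hs : Semi σ s) (c : ℂ)
    (t : MultilinearMap ℂ (fun _ : Fin k => U) ℂ) : MultilinearMap ℂ (fun _ : Fin k => U) ℂ where
  toFun x := σ.symm (c * t (fun i => s (x i)))
  map_update_add' := by
    intro _ x i a b
    rw [update_comp s, update_comp s, update_comp s, map_add, t.map_update_add, mul_add, map_add]
  map_update_smul' := by
    intro _ x i a b
    rw [update_comp s, update_comp s, hs, t.map_update_smul]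
    have : c * (σ a • t (Function.update (fun j => s (x j)) i (s b))) =
        σ a * (c * t (Function.update (fun j => s (x j)) i (s b))) := by rw [smul_eq_mul]; ring
    rw [this, map_mul, σ.symm_apply_apply, smul_eq_mul]

lemma pull_apply {k : ℕ} {σ : ℂ ≃+* ℂ} {s : U ≃+ U} (hs : Semi σ s) (c : ℂ)
    (t : MultilinearMap ℂ (fun _ : Fin k => U) ℂ) (x : Fin k → U) :
    pull hs c t x = σ.symm (c * t (fun i => s (x i))) := rfl

variable [Module ℚ U]

lemma tensor_conj {k : ℕ} {σ : ℂ ≃+* ℂ} {L : Submodule ℚ U} (hL : IsRat L) {s : U ≃+ U} (hs : IsConj σ L s) {κ : ℂ}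
    {t : MultilinearMap ℂ (fun _ : Fin k => U) ℂ} (ht : ∀ x : Fin k → U, (∀ i, x i ∈ L) → ∃ q : ℚ, κ * t x = q)
    (x : Fin k → U) : κ * t (fun i => s (x i)) = σ (κ * t x) := by
  obtain ⟨n, v, rfl⟩ := hL
  have hv : ∀ i, v i ∈ Submodule.span ℚ (Set.range v) := fun i => Submodule.subset_span ⟨i, rfl⟩
  have h1 : pull hs.semi κ t = κ • t := by
    apply Basis.ext_multilinear (fun _ => v)
    intro f
    rw [pull_apply, smul_apply, smul_eq_mul]
    have h2 : (fun i => s (v (f i))) = fun i => v (f i) := by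
      funext i
      exact hs.2 _ (hv _)
    rw [h2]
    obtain ⟨q, hq⟩ := ht (fun i => v (f i)) (fun i => hv _)
    rw [hq, map_ratCast]
  have h2 := congrArg (fun T => T x) h1
  simp only [pull_apply, smul_apply, smul_eq_mul] at h2
  rw [← h2, σ.apply_symm_apply]

section hodge

variable {M : Mot U} {k : ℕ} {t : MultilinearMap ℂ (fun _ : Fin k => U) ℂ}

lemma tensor_fil (ht : IsTensor M t) (p : Fin k → ℤ) (x : Fin k → U) (hx : ∀ i, x i ∈ M.fil (p i))
    (hp : k * M.w < 2 * ∑ i, p i) : t x = 0 := by
  classical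
  have key : ∀ S : Finset (Fin k), ∀ (p : Fin k → ℤ) (x : Fin k → U), (∀ i ∈ S, x i ∈ M.fil (p i)) →
      (∀ i ∉ S, x i ∈ M.H (p i)) → k * M.w < 2 * ∑ i, p i → t x = 0 := by
    intro S
    induction S using Finset.induction_on with
    | empty =>
      intro p x _ hx hp
      exact ht.hodge p x (fun i => hx i (by simp)) (by omega)
    | insert i S hi ih =>
      intro p x hx hx' hp
      have h1 : M.fil (p i) ≤ LinearMap.ker (t.toLinearMap x i) := by
        refine iSup₂_le fun q hq => ?_
        intro z hz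
        rw [LinearMap.mem_ker, MultilinearMap.toLinearMap_apply]
        refine ih (Function.update p i q) (Function.update x i z) ?_ ?_ ?_
        · intro j hj
          have hji : j ≠ i := fun e => hi (e ▸ hj)
          rw [Function.update_of_ne hji, Function.update_of_ne hji]
          exact hx j (Finset.mem_insert_of_mem hj)
        · intro j hj
          by_cases hji : j = i
          · subst hji; simpa using hz
          · rw [Function.update_of_ne hji, Function.update_of_ne hji]
            exact hx' j (by simp [hji, hj])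
        · have h2 : ∑ j, Function.update p i q j = ∑ j, p j + (q - p i) := by
            rw [Finset.sum_update_of_mem (Finset.mem_univ i), ← Finset.add_sum_erase Finset.univ p (Finset.mem_univ i),
              Finset.sdiff_singleton_eq_erase]
            ring
          rw [h2]
          omega
      have h3 := LinearMap.mem_ker.1 (h1 (hx i (Finset.mem_insert_self i S)))
      rwa [MultilinearMap.toLinearMap_apply, Function.update_eq_self] at h3
  exact key Finset.univ p x (fun i _ => hx i) (fun i hi => absurd (Finset.mem_univ i) hi) hp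

lemma tensor_congr (ht : IsTensor M t) (p : Fin k → ℤ) (x y : Fin k → U) (hy : ∀ i, y i ∈ M.fil (p i))
    (hxy : ∀ i, x i - y i ∈ M.fil (p i + 1)) (hp : k * M.w ≤ 2 * ∑ i, p i) : t x = t y := by
  classical
  have e : x = (fun i => x i - y i) + y := by funext i; simp
  rw [e, MultilinearMap.map_add_univ, Finset.sum_eq_single ∅]
  · simp
  · intro S _ hS
    obtain ⟨i, hi⟩ := Finset.nonempty_iff_ne_empty.2 hS
    refine tensor_fil ht (fun j => if j ∈ S then p j + 1 else p j) _ ?_ ?_
    · intro j
      by_cases hj : j ∈ S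
      · rw [Finset.piecewise_eq_of_mem _ _ _ hj, if_pos hj]; exact hxy j
      · rw [Finset.piecewise_eq_of_notMem _ _ _ hj, if_neg hj]; exact hy j
    · have h1 : ∑ j, p j < ∑ j, (if j ∈ S then p j + 1 else p j) := by
        apply Finset.sum_lt_sum
        · intro j _
          split_ifs <;> omega
        · exact ⟨i, Finset.mem_univ i, by rw [if_pos hi]; omega⟩
      omega
  · simp

variable [FiniteDimensional ℂ U]

lemma tensor_gr (ht : IsTensor M t) {σ : ℂ ≃+* ℂ} {s : U ≃+ U} (hs : IsConj σ M.D s) {κ : ℂ}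
    (hκ : ∀ x : Fin k → U, (∀ i, x i ∈ M.D) → ∃ q : ℚ, κ * t x = q) (x : Fin k → U) :
    κ * t (fun i => grEq M hs (x i)) = σ (κ * t x) := by
  classical
  let b := M.decomp.collectedBasis (fun p => finBasis ℂ (M.H p))
  have hb : ∀ a, (b a : U) ∈ M.H a.1 := by
    intro a
    exact M.decomp.collectedBasis_mem (fun p => finBasis ℂ (M.H p)) a
  have h1 : pull (grEq_semi M hs) κ t = κ • t := by
    apply Basis.ext_multilinear (fun _ => b)
    intro f
    rw [pull_apply, smul_apply, smul_eq_mul]
    by_cases hp : 2 * ∑ i, (f i).1 = k * M.w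
    · have h2 : t (fun i => s (b (f i))) = t (fun i => grEq M hs (b (f i))) := by
        apply tensor_congr ht (fun i => (f i).1)
        · intro i
          exact gr_fil _ _ _ (M.H_le_fil le_rfl (hb (f i)))
        · intro i
          exact gr_sub (conj_fil hs) (M.H_le_fil le_rfl (hb (f i)))
        · omega
      rw [← h2, tensor_conj M.D_rat hs hκ, σ.symm_apply_apply]
    · have h2 : t (fun i => grEq M hs (b (f i))) = 0 :=
        ht.hodge (fun i => (f i).1) _ (fun i => gr_mem _ (hb (f i))) hp
      rw [ht.hodge (fun i => (f i).1) _ (fun i => hb (f i)) hp, h2]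
      simp
  have h2 := congrArg (fun T => T x) h1
  simp only [pull_apply, smul_apply, smul_eq_mul] at h2
  rw [← h2, σ.apply_symm_apply]

end hodge

variable {M : Mot U} {J : Type} {k : J → ℕ} {t : ∀ j, MultilinearMap ℂ (fun _ : Fin (k j) => U) ℂ}

lemma Feq_mem (ht : ∀ j, IsTensor M (t j)) : Feq M ∈ strGroup t := by
  intro j
  obtain ⟨ε, hε, h⟩ := (ht j).frob
  exact ⟨ε, hε, h⟩

lemma lin_mem (ht : ∀ j, IsTensor M (t j)) {σ : ℂ ≃+* ℂ} {sB sD : U ≃+ U} (hB : IsConj σ M.B sB)
    (hD : IsConj σ M.D sD) : lin sB sD hB.semi hD.semi ∈ strGroup t := by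
  intro j
  obtain ⟨κ, hκ, h⟩ := (ht j).deRham
  have hκ' : σ κ ≠ 0 := by simpa using hκ
  refine ⟨κ / σ κ, div_ne_zero hκ hκ', fun x => ?_⟩
  have h1 := tensor_conj M.B_rat hB (κ := 1) (t := t j) (fun x hx => by simpa using (ht j).betti x hx)
    (fun i => sD.symm (x i))
  have h2 := tensor_conj M.D_rat hD (t := t j) h (fun i => sD.symm (x i))
  rw [one_mul, one_mul] at h1
  have h3 : (fun i => sD (sD.symm (x i))) = x := by funext i; exact sD.apply_symm_apply _
  rw [h3, map_mul] at h2
  have h4 : t j (fun i => lin sB sD hB.semi hD.semi (x i)) = σ (t j fun i => sD.symm (x i)) := h1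
  rw [h4]
  field_simp
  rw [h2, mul_comm]

variable [FiniteDimensional ℂ U]

lemma uEq_mem (ht : ∀ j, IsTensor M (t j)) {σ : ℂ ≃+* ℂ} {sD : U ≃+ U} (hD : IsConj σ M.D sD) :
    uEq M hD ∈ strGroup t := by
  intro j
  obtain ⟨κ, hκ, h⟩ := (ht j).deRham
  refine ⟨1, one_ne_zero, fun x => ?_⟩
  have h1 := tensor_gr (ht j) hD h (fun i => sD.symm (x i))
  have h2 := tensor_conj M.D_rat hD (t := t j) h (fun i => sD.symm (x i))
  have h3 : (fun i => sD (sD.symm (x i))) = x := by funext i; exact sD.apply_symm_apply _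
  rw [h3, ← h1] at h2
  have h4 := mul_left_cancel₀ hκ h2
  rw [one_mul, h4]
  rfl

end Pool.Agent.H15.CR
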