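import Pool.Agent.H15.CR.Dets

/-! The action of the automorphisms of `ℂ` on periods. -/

set_option autoImplicit false

namespace Pool.Agent.H15.CR

open Module Pool.Agent.H15.SP

variable {V : Type} [AddCommGroup V] [Module ℂ V] [Module ℚ V] [FiniteDimensional ℂ V]

/-- vectors of `M_dR` which are independent modulo a step of the filtration over `ℚ` are so over `ℂ` -/
lemma indep_mod [IsScalarTower ℚ ℂ V] (T : Mot V) (i : ℤ) {n : ℕ} (z : Fin n → V) (hz : ∀ k, z k ∈ T.D)
    (h : ∀ q : Fin n → ℚ, ∑ k, (q k : ℂ) • z k ∈ T.fil i → q = 0) (a : Fin n → ℂ)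
    (ha : ∑ k, a k • z k ∈ T.fil i) : a = 0 := by
  have := T.D_rat.finite
  let W : Submodule ℚ V := T.D ⊓ (T.fil i).restrictScalars ℚ
  have : Module.Finite ℚ W := Submodule.finiteDimensional_of_le (inf_le_left : W ≤ T.D)
  let e := finBasis ℚ W
  -- the sum in terms of the basis of `W`
  have h1 : T.fil i = Submodule.span ℂ (W : Set V) := T.fil_rat i
  have h2 : ∀ x ∈ T.fil i, ∃ c : Fin (finrank ℚ W) → ℂ, x = ∑ l, c l • (e l : V) := by
    intro x hx
    rw [h1] at hx
    have h3 : Submodule.span ℂ (W : Set V) ≤ Submodule.span ℂ (Set.range fun l => (e l : V)) := by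
      rw [Submodule.span_le]
      intro y hy
      have h4 := congrArg Subtype.val (e.sum_repr ⟨y, hy⟩)
      simp only [Submodule.coe_sum, Submodule.coe_smul] at h4
      rw [← h4]
      refine Submodule.sum_mem _ fun l _ => ?_
      rw [← Rat.cast_smul_eq_qsmul ℂ]
      exact Submodule.smul_mem _ _ (Submodule.subset_span ⟨l, rfl⟩)
    obtain ⟨c, hc⟩ := (Submodule.mem_span_range_iff_exists_fun ℂ).1 (h3 hx)
    exact ⟨c, hc.symm⟩
  obtain ⟨c, hc⟩ := h2 _ ha
  let f : Fin n ⊕ Fin (finrank ℚ W) → V := Sum.elim z (fun l => (e l : V))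
  have hf : ∀ j, f j ∈ T.D := by
    rintro (k | l)
    · exact hz k
    · exact (e l).2.1
  have hind : LinearIndependent ℚ f := by
    rw [Fintype.linearIndependent_iff]
    intro q hq
    rw [Fintype.sum_sum_type] at hq
    simp only [f, Sum.elim_inl, Sum.elim_inr] at hq
    have h5 : ∑ k, ((q (Sum.inl k) : ℚ) : ℂ) • z k ∈ T.fil i := by
      have h6 : ∑ k, ((q (Sum.inl k) : ℚ) : ℂ) • z k = -∑ l, q (Sum.inr l) • (e l : V) := by
        simp_rw [Rat.cast_smul_eq_qsmul]
        exact eq_neg_of_add_eq_zero_left hq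
      rw [h6]
      refine Submodule.neg_mem _ (Submodule.sum_mem _ fun l _ => ?_)
      rw [← Rat.cast_smul_eq_qsmul ℂ]
      exact Submodule.smul_mem _ _ (e l).2.2
    have h7 := h (fun k => q (Sum.inl k)) h5
    have h8 : ∀ k, q (Sum.inl k) = 0 := fun k => congrFun h7 k
    simp_rw [h8, zero_smul, Finset.sum_const_zero, zero_add] at hq
    have h9 : ∑ l, q (Sum.inr l) • e l = 0 := by
      apply Subtype.ext
      simp only [Submodule.coe_sum, Submodule.coe_smul]
      exact hq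
    have h10 := Fintype.linearIndependent_iff.1 e.linearIndependent _ h9
    rintro (k | l)
    · exact h8 k
    · exact h10 l
  have hC := T.D_rat.linearIndependent hf hind
  rw [Fintype.linearIndependent_iff] at hC
  have h11 := hC (Sum.elim a (fun l => -c l)) (by
    rw [Fintype.sum_sum_type]
    simp only [f, Sum.elim_inl, Sum.elim_inr, neg_smul, Finset.sum_neg_distrib]
    rw [hc, add_neg_cancel])
  funext k
  exact h11 (Sum.inl k)

omit [FiniteDimensional ℂ V] in
lemma span_mod (T : Mot V) (i : ℤ) {n : ℕ} (v : Fin n → V)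
    (h : ∀ x ∈ T.D, ∃! a : Fin n → ℚ, x - ∑ k, (a k : ℂ) • v k ∈ T.fil i) (x : V) :
    ∃ a : Fin n → ℂ, x - ∑ k, a k • v k ∈ T.fil i := by
  have hx : x ∈ Submodule.span ℂ (T.D : Set V) := by rw [T.D_rat.span_eq_top]; trivial
  induction hx using Submodule.span_induction with
  | mem x hx =>
    obtain ⟨a, ha, -⟩ := h x hx
    exact ⟨fun k => a k, ha⟩
  | zero => exact ⟨0, by simp⟩
  | add x y _ _ h1 h2 =>
    obtain ⟨a, ha⟩ := h1
    obtain ⟨a', ha'⟩ := h2
    refine ⟨a + a', ?_⟩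
    have : x + y - ∑ k, (a + a') k • v k = (x - ∑ k, a k • v k) + (y - ∑ k, a' k • v k) := by
      simp_rw [Pi.add_apply, add_smul, Finset.sum_add_distrib]
      abel
    rw [this]
    exact Submodule.add_mem _ ha ha'
  | smul q x _ h1 =>
    obtain ⟨a, ha⟩ := h1
    refine ⟨q • a, ?_⟩
    have : q • x - ∑ k, (q • a) k • v k = q • (x - ∑ k, a k • v k) := by
      rw [smul_sub, Finset.smul_sum]
      simp_rw [Pi.smul_apply, smul_eq_mul, smul_smul]
    rw [this]
    exact Submodule.smul_mem _ _ ha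

lemma indep_mod' [IsScalarTower ℚ ℂ V] (T : Mot V) (i : ℤ) {n : ℕ} (v : Fin n → V) (hv : ∀ k, v k ∈ T.D)
    (h : ∀ x ∈ T.D, ∃! a : Fin n → ℚ, x - ∑ k, (a k : ℂ) • v k ∈ T.fil i) (a : Fin n → ℂ)
    (ha : ∑ k, a k • v k ∈ T.fil i) : a = 0 := by
  refine indep_mod T i v hv ?_ a ha
  intro q hq
  obtain ⟨a0, -, h1⟩ := h 0 T.D.zero_mem
  have h2 := h1 0 (by simp [Submodule.zero_mem])
  have h3 := h1 q (by
    show (0 : V) - ∑ k, (q k : ℂ) • v k ∈ T.fil i
    rw [zero_sub]; exact Submodule.neg_mem _ hq)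
  rw [h3, ← h2]

omit [FiniteDimensional ℂ V] in
/-- rational bases are independent over `ℚ` -/
lemma basis_indep {L : Submodule ℚ V} {n : ℕ} {e : Fin n → V} (he : IsBasisOf e L) (q : Fin n → ℚ)
    (hq : ∑ k, (q k : ℂ) • e k = 0) : q = 0 := by
  obtain ⟨a0, -, h1⟩ := he.2 0 L.zero_mem
  have h2 := h1 0 (by simp)
  have h3 := h1 q hq.symm
  rw [h3, ← h2]

omit [FiniteDimensional ℂ V] in
lemma basis_indepC {L L' : Submodule ℚ V} (hL : IsRat L) (hL' : L' ≤ L) {n : ℕ} {e : Fin n → V}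
    (he : IsBasisOf e L') : LinearIndependent ℂ e := by
  refine hL.linearIndependent (fun k => hL' (he.1 k)) ?_
  rw [Fintype.linearIndependent_iff]
  intro q hq i
  have := basis_indep he q (by simp_rw [Rat.cast_smul_eq_qsmul]; exact hq)
  rw [this]; rfl

omit [FiniteDimensional ℂ V] in
lemma basis_span {L : Submodule ℚ V} {n : ℕ} {e : Fin n → V} (he : IsBasisOf e L) {x : V}
    (hx : x ∈ Submodule.span ℂ (L : Set V)) : ∃ a : Fin n → ℂ, x = ∑ k, a k • e k := by
  have h1 : Submodule.span ℂ (L : Set V) ≤ Submodule.span ℂ (Set.range e) := by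
    rw [Submodule.span_le]
    intro y hy
    obtain ⟨a, ha, -⟩ := he.2 y hy
    rw [ha]
    exact Submodule.sum_mem _ fun k _ => Submodule.smul_mem _ _ (Submodule.subset_span ⟨k, rfl⟩)
  obtain ⟨a, ha⟩ := (Submodule.mem_span_range_iff_exists_fun ℂ).1 (h1 hx)
  exact ⟨a, ha.symm⟩

lemma lat_span (T : Mot V) (p : ℤ) {x : V} (hx : x ∈ T.H p) : x ∈ Submodule.span ℂ (grLat T p : Set V) := by
  have h1 : ∀ y ∈ Submodule.span ℂ ((T.D : Set V) ∩ (T.fil p : Set V)),
      comp T p y ∈ Submodule.span ℂ (grLat T p : Set V) := by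
    intro y hy
    induction hy using Submodule.span_induction with
    | mem y hy =>
      refine Submodule.subset_span ⟨comp_mem p y, y, hy.1, sub_comp_mem hy.2⟩
    | zero => rw [map_zero]; exact Submodule.zero_mem _
    | add x y _ _ h1 h2 => rw [map_add]; exact Submodule.add_mem _ h1 h2
    | smul a x _ h1 => rw [map_smul]; exact Submodule.smul_mem _ _ h1
  have h2 := h1 x (by
    have h3 : T.fil p = Submodule.span ℂ ((T.D : Set V) ∩ (T.fil p : Set V)) := T.fil_rat p
    rw [← h3]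
    exact T.H_le_fil le_rfl hx)
  rwa [comp_self hx] at h2

lemma lat_indep [IsScalarTower ℚ ℂ V] (T : Mot V) (p : ℤ) {n : ℕ} {x : Fin n → V} (hx : IsBasisOf x (grLat T p)) :
    LinearIndependent ℂ x := by
  have h0 := hx.1
  choose hH z hz hzx using h0
  rw [Fintype.linearIndependent_iff]
  intro a ha
  have h1 : ∀ b : Fin n → ℂ, ∑ k, b k • z k - ∑ k, b k • x k ∈ T.fil (p + 1) := by
    intro b
    rw [← Finset.sum_sub_distrib]
    refine Submodule.sum_mem _ fun k _ => ?_
    rw [← smul_sub]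
    exact Submodule.smul_mem _ _ (hzx k)
  have h2 : a = 0 := by
    refine indep_mod T (p + 1) z hz ?_ a ?_
    · intro q hq
      apply basis_indep hx
      have h3 : ∑ k, ((q k : ℚ) : ℂ) • x k ∈ T.fil (p + 1) := by
        have h4 := Submodule.sub_mem _ hq (h1 fun k => (q k : ℂ))
        rwa [sub_sub_cancel] at h4
      have h5 : ∑ k, ((q k : ℚ) : ℂ) • x k ∈ T.H p :=
        Submodule.sum_mem _ fun k _ => Submodule.smul_mem _ _ (hH k)
      have h6 := comp_fil (show p < p + 1 by omega) h3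
      rwa [comp_self h5] at h6
    · have := h1 a
      rwa [ha, sub_zero] at this
  intro i
  rw [h2]; rfl

section

variable {σ : ℂ ≃+* ℂ} {s : V ≃+ V}

/-- the Hodge periods: `σ(d) = d det(l)` if `s_gr F_∞ s_gr⁻¹ = F_∞ l` -/
lemma hodge_trans [IsScalarTower ℚ ℂ V] (T : Mot V) (hD : IsConj σ T.D s) {p : ℤ} {d : ℂ} (hd : IsHodgePeriod T p d)
    (l : V ≃ₗ[ℂ] V) (hl : ∀ y, l y = T.F (Fconj T hD y)) : σ d = d * detOn l (T.H p) := by
  obtain ⟨n, x, y, A, hx, hy, hA, rfl⟩ := hd
  have hspan : ∀ z ∈ T.H p, ∃ a : Fin n → ℂ, z = ∑ k, a k • x k := fun z hz => basis_span hx (lat_span T p hz)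
  have hxH : ∀ j, x j ∈ T.H p := fun j => (hx.1 j).1
  have hlH : ∀ j, l (x j) ∈ T.H p := by
    intro j
    rw [hl]
    have := T.swap _ _ (Fconj_H hD (hxH j))
    rwa [show T.w - (T.w - p) = p by ring] at this
  choose Λ hΛ using fun j => hspan _ (hlH j)
  have hdet := detOn_basis l (T.H p) x hxH (lat_indep T p hx) hspan (Matrix.of fun i j => Λ j i) (fun j => hΛ j)
  -- `s_gr` applied to the defining relation
  have h1 : ∀ j, Fconj T hD (x j) = ∑ k, σ (A k j) • y k := by
    intro j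
    rw [Fconj]
    have h2 : (grEq T hD).symm (x j) = x j := by
      rw [AddEquiv.symm_apply_eq, grEq_lat T hD (hx.1 j)]
    rw [h2, hA, map_sum]
    refine Finset.sum_congr rfl fun k _ => ?_
    rw [grEq_semi, grEq_lat T hD (hy.1 k)]
  have h2 : ∀ j, Fconj T hD (x j) = ∑ k, (A * Matrix.of fun i j => Λ j i) k j • y k := by
    intro j
    have h3 : Fconj T hD (x j) = T.F (l (x j)) := by rw [hl, T.F_sq]
    rw [h3, hΛ, map_sum]
    simp_rw [map_smul, hA, Finset.smul_sum, smul_smul]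
    rw [Finset.sum_comm]
    refine Finset.sum_congr rfl fun k _ => ?_
    rw [Matrix.mul_apply, Finset.sum_smul]
    exact Finset.sum_congr rfl fun i _ => by rw [Matrix.of_apply, mul_comm]
  have h3 : A.map σ = A * Matrix.of fun i j => Λ j i := by
    ext k j
    have h4 : ∑ k, (σ (A k j) - (A * Matrix.of fun i j => Λ j i) k j) • y k = 0 := by
      simp_rw [sub_smul, Finset.sum_sub_distrib]
      rw [← h1, ← h2, sub_self]
    have h5 := Fintype.linearIndependent_iff.1 (lat_indep T _ hy) _ h4 k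
    rw [Matrix.map_apply]
    exact sub_eq_zero.1 h5
  have h4 : σ A.det = (A.map σ).det := by
    have := RingHom.map_det (σ : ℂ →+* ℂ) A
    exact this
  rw [h4, h3, Matrix.det_mul, hdet]

end

end Pool.Agent.H15.CR
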